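import Pool.Agent.Y478.TG.Meas

/-!
# The alternating sum of the spectral measures, and the `L²`-torsion of a product
-/

open scoped InnerProductSpace Topology

noncomputable section

namespace Pool.Agent.Y478.TG

open Pool.Agent.Helper993 MeasureTheory Filter

namespace Cx

variable {G H : Type} [Group G] [Group H] (C : Cx G) (D : Cx H)

theorem mom_zero (a : Fin C.cells) : C.mom a 0 = 1 := by
  simp [mom, MonoidAlgebra.one_def]

variable (hS : SpecStmt) (hM : MomStmt)

include hS hM

/-- The alternating sum of the spectral measures of the cells is the Euler characteristic times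
the unit mass at zero. -/
theorem alt_integral {f : ℝ → ℝ} (hf : ∀ a, Integrable f (C.cellMeas a)) :
    ∑ a, (-1 : ℝ) ^ C.deg a * ∫ x, f x ∂(C.cellMeas a) = (C.euler : ℝ) * f 0 := by
  have hfin : ∀ a, IsFiniteMeasure (C.cellMeas a) := C.cell_finite hS
  set n1 : NNReal := ((-C.euler).toNat : NNReal) with hn1
  set n2 : NNReal := ((C.euler).toNat : NNReal) with hn2
  have hχ : (C.euler : ℝ) = (n2 : ℝ) - n1 := by
    have h : C.euler = (C.euler.toNat : ℤ) - ((-C.euler).toNat : ℤ) := by omega
    have h2 := congrArg (fun z : ℤ => (z : ℝ)) h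
    simp only [Int.cast_sub, Int.cast_natCast] at h2
    rw [hn1, hn2]
    push_cast
    exact h2
  have hχ2 : (C.euler : ℝ) = ∑ a with Even (C.deg a), (1 : ℝ) - ∑ a with ¬ Even (C.deg a), (1 : ℝ) := by
    rw [euler]
    push_cast
    rw [← Finset.sum_filter_add_sum_filter_not Finset.univ (fun a => Even (C.deg a)),
      sub_eq_add_neg, ← Finset.sum_neg_distrib]
    congr 1
    · exact Finset.sum_congr rfl fun a ha => (Finset.mem_filter.mp ha).2.neg_one_pow
    · exact Finset.sum_congr rfl fun a ha =>
        (Nat.not_even_iff_odd.mp (Finset.mem_filter.mp ha).2).neg_one_pow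
  have hsupp : ∀ (S : Finset (Fin C.cells)) (n : NNReal),
      ((∑ a ∈ S, C.cellMeas a) + n • Measure.dirac (0 : ℝ)) (Set.Icc 0 ‖C.laplacian‖)ᶜ = 0 := by
    intro S n
    rw [Measure.add_apply, Measure.finsetSum_apply, Finset.sum_eq_zero (fun a _ => C.cell_supp hS a),
      Measure.smul_apply, Measure.dirac_apply' _ measurableSet_Icc.compl]
    simp
  have hmom : ∀ (S : Finset (Fin C.cells)) (n : NNReal) (g : ℝ → ℝ),
      (∀ a, Integrable g (C.cellMeas a)) →
      ∫ x, g x ∂((∑ a ∈ S, C.cellMeas a) + n • Measure.dirac (0 : ℝ))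
        = ∑ a ∈ S, ∫ x, g x ∂(C.cellMeas a) + n * g 0 := by
    intro S n g hg
    have hd : Integrable g (Measure.dirac (0 : ℝ)) := by
      refine integrable_dirac ?_
      simp
    rw [integral_add_measure, integral_finsetSum_measure (fun a _ => hg a),
      integral_smul_nnreal_measure, integral_dirac]
    · rfl
    · exact integrable_finsetSum_measure.mpr fun a _ => hg a
    · exact hd.smul_measure_nnreal
  have key : (∑ a with Even (C.deg a), C.cellMeas a) + n1 • Measure.dirac (0 : ℝ)
      = (∑ a with ¬ Even (C.deg a), C.cellMeas a) + n2 • Measure.dirac (0 : ℝ) := by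
    apply hM _ _ ‖C.laplacian‖ (hsupp _ _) (hsupp _ _)
    intro k
    have hint : ∀ a, Integrable (fun x : ℝ => x ^ k) (C.cellMeas a) := fun a =>
      integrable_cont _ (C.cell_supp hS a) (continuous_pow k)
    rw [hmom _ _ _ hint, hmom _ _ _ hint]
    simp only [C.cell_mom hS]
    rcases k with _ | k
    · simp only [mom_zero, Int.cast_one, pow_zero, mul_one]
      linarith
    · have h := C.alt_mom k
      rw [← Finset.sum_filter_add_sum_filter_not Finset.univ (fun a => Even (C.deg a))] at h
      have e1 : ∑ a with Even (C.deg a), (-1) ^ C.deg a * C.mom a (k + 1)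
          = ∑ a with Even (C.deg a), C.mom a (k + 1) :=
        Finset.sum_congr rfl fun a ha => by
          rw [(Finset.mem_filter.mp ha).2.neg_one_pow, one_mul]
      have e2 : ∑ a with ¬ Even (C.deg a), (-1) ^ C.deg a * C.mom a (k + 1)
          = - ∑ a with ¬ Even (C.deg a), C.mom a (k + 1) := by
        rw [← Finset.sum_neg_distrib]
        exact Finset.sum_congr rfl fun a ha => by
          rw [(Nat.not_even_iff_odd.mp (Finset.mem_filter.mp ha).2).neg_one_pow, neg_one_mul]
      rw [e1, e2] at h
      have h3 : (∑ a with Even (C.deg a), C.mom a (k + 1) : ℤ)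
          = ∑ a with ¬ Even (C.deg a), C.mom a (k + 1) := by linarith
      have h4 := congrArg (fun z : ℤ => (z : ℝ)) h3
      push_cast at h4
      rw [h4]
      simp
  have h5 := congrArg (fun μ : Measure ℝ => ∫ x, f x ∂μ) key
  beta_reduce at h5
  rw [hmom _ _ _ hf, hmom _ _ _ hf] at h5
  rw [← Finset.sum_filter_add_sum_filter_not Finset.univ (fun a => Even (C.deg a))]
  have e1 : ∑ a with Even (C.deg a), (-1 : ℝ) ^ C.deg a * ∫ x, f x ∂(C.cellMeas a)
      = ∑ a with Even (C.deg a), ∫ x, f x ∂(C.cellMeas a) :=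
    Finset.sum_congr rfl fun a ha => by
      rw [(Finset.mem_filter.mp ha).2.neg_one_pow, one_mul]
  have e2 : ∑ a with ¬ Even (C.deg a), (-1 : ℝ) ^ C.deg a * ∫ x, f x ∂(C.cellMeas a)
      = - ∑ a with ¬ Even (C.deg a), ∫ x, f x ∂(C.cellMeas a) := by
    rw [← Finset.sum_neg_distrib]
    exact Finset.sum_congr rfl fun a ha => by
      rw [(Nat.not_even_iff_odd.mp (Finset.mem_filter.mp ha).2).neg_one_pow, neg_one_mul]
  rw [e1, e2, hχ]
  linarith

theorem cell_zero (h : ∀ n, C.l2betti n = 0) (a : Fin C.cells) : C.cellMeas a {0} = 0 := by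
  have h1 := h (C.deg a)
  have h2 := C.spec_finite hS (C.deg a)
  rw [l2betti, measureReal_eq_zero_iff, C.spec_eq hS hM, Measure.finsetSum_apply,
    Finset.sum_eq_zero_iff] at h1
  exact h1 a (by simp)

theorem l2betti_zero (h : ∀ a, C.cellMeas a {0} = 0) (n : ℕ) : C.l2betti n = 0 := by
  have h2 := C.spec_finite hS n
  rw [l2betti, measureReal_eq_zero_iff, C.spec_eq hS hM, Measure.finsetSum_apply,
    Finset.sum_eq_zero_iff]
  exact fun a _ => h a

/-- The Euler characteristic of an `L²`-acyclic complex is zero. -/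
theorem euler_zero (h : ∀ n, C.l2betti n = 0) : C.euler = 0 := by
  have hfin : ∀ a, IsFiniteMeasure (C.cellMeas a) := C.cell_finite hS
  have h1 := C.alt_integral hS hM (f := Set.indicator {0} (fun _ => (1 : ℝ)))
    (fun a => (integrable_const 1).indicator (measurableSet_singleton 0))
  have h2 : ∀ a, ∫ x, Set.indicator {0} (fun _ => (1 : ℝ)) x ∂(C.cellMeas a) = 0 := by
    intro a
    rw [integral_indicator (measurableSet_singleton 0), setIntegral_const, Measure.real,
      C.cell_zero hS hM h a]
    simp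
  simp only [h2, mul_zero, Finset.sum_const_zero] at h1
  simp at h1
  exact_mod_cast h1.symm

theorem l2torsion_eq (hL : ∀ a, IntegrableOn Real.log (Set.Ioi 0) (C.cellMeas a)) :
    C.l2torsion = -(1 / 2) * ∑ a, (-1 : ℝ) ^ C.deg a * ((C.deg a : ℝ) *
      ∫ x in Set.Ioi (0 : ℝ), Real.log x ∂(C.cellMeas a)) := by
  unfold l2torsion
  congr 1
  have h1 : ∀ n, ∫ x in Set.Ioi (0 : ℝ), Real.log x ∂(C.specMeas n)
      = ∑ a with C.deg a = n, ∫ x in Set.Ioi (0 : ℝ), Real.log x ∂(C.cellMeas a) := by
    intro n
    rw [C.spec_eq hS hM, ← integral_indicator measurableSet_Ioi, integral_finsetSum_measure]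
    · exact Finset.sum_congr rfl fun a _ => integral_indicator measurableSet_Ioi
    · intro a _
      exact (integrable_indicator_iff measurableSet_Ioi).mpr (hL a)
  rw [← Finset.sum_fiberwise_of_maps_to (s := Finset.univ) (t := Finset.univ.image C.deg)
    (g := C.deg) (fun a _ => Finset.mem_image_of_mem _ (Finset.mem_univ a))]
  refine Finset.sum_congr rfl fun n _ => ?_
  rw [h1, Finset.mul_sum]
  refine Finset.sum_congr rfl fun a ha => ?_
  rw [(Finset.mem_filter.mp ha).2, mul_assoc]

section product

variable (hac : ∀ n, C.l2betti n = 0) (hL : ∀ a, IntegrableOn Real.log (Set.Ioi 0) (C.cellMeas a))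

include hac

theorem cell_pos (a : Fin C.cells) : ∀ᵐ x ∂(C.cellMeas a), 0 < x ∧ x ≤ ‖C.laplacian‖ := by
  have h0 : ∀ᵐ x ∂(C.cellMeas a), x ≠ 0 := by
    rw [ae_iff]
    simpa using C.cell_zero hS hM hac a
  filter_upwards [C.cell_ae hS a, h0] with x hx hx0
  exact ⟨lt_of_le_of_ne hx.1 hx0.symm, hx.2⟩

include hL

theorem cell_log (a : Fin C.cells) : Integrable Real.log (C.cellMeas a) := by
  have h1 := hL a
  have h2 : (C.cellMeas a).restrict (Set.Ioi 0) = C.cellMeas a := by
    apply Measure.restrict_eq_self_of_ae_mem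
    filter_upwards [C.cell_pos hS hM hac a] with x hx
    exact hx.1
  rwa [IntegrableOn, h2] at h1

theorem setIntegral_log (a : Fin C.cells) : ∫ x in Set.Ioi (0 : ℝ), Real.log x ∂(C.cellMeas a)
    = ∫ x, Real.log x ∂(C.cellMeas a) := by
  have h2 : (C.cellMeas a).restrict (Set.Ioi 0) = C.cellMeas a := by
    apply Measure.restrict_eq_self_of_ae_mem
    filter_upwards [C.cell_pos hS hM hac a] with x hx
    exact hx.1
  rw [h2]

theorem log_add_integrable (a : Fin C.cells) (b : Fin D.cells) :
    Integrable (fun z : ℝ × ℝ => Real.log (z.1 + z.2)) ((C.cellMeas a).prod (D.cellMeas b)) := by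
  have h2 := C.cell_finite hS a
  have h3 := D.cell_finite hS b
  have h4 : Integrable (fun z : ℝ × ℝ => |Real.log z.1| +
      |Real.log (‖C.laplacian‖ + ‖D.laplacian‖)|) ((C.cellMeas a).prod (D.cellMeas b)) := by
    apply Integrable.add _ (integrable_const _)
    exact ((C.cell_log hS hM hac hL a).abs).comp_fst _
  refine h4.mono' (Real.measurable_log.comp (by fun_prop)).aestronglyMeasurable ?_
  have e1 := (Measure.quasiMeasurePreserving_fst (μ := C.cellMeas a)
    (ν := D.cellMeas b)).ae (C.cell_pos hS hM hac a)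
  have e2 := (Measure.quasiMeasurePreserving_snd (μ := C.cellMeas a)
    (ν := D.cellMeas b)).ae (D.cell_ae hS b)
  filter_upwards [e1, e2] with z hz1 hz2
  have h5 : Real.log z.1 ≤ Real.log (z.1 + z.2) :=
    Real.log_le_log hz1.1 (by linarith [hz2.1])
  have h6 : Real.log (z.1 + z.2) ≤ Real.log (‖C.laplacian‖ + ‖D.laplacian‖) :=
    Real.log_le_log (by linarith [hz1.1, hz2.1]) (add_le_add hz1.2 hz2.2)
  rw [Real.norm_eq_abs, abs_le]
  have := neg_abs_le (Real.log z.1)
  have := le_abs_self (Real.log (‖C.laplacian‖ + ‖D.laplacian‖))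
  have := abs_nonneg (Real.log z.1)
  have := abs_nonneg (Real.log (‖C.laplacian‖ + ‖D.laplacian‖))
  constructor <;> linarith

theorem prod_pos (p : Fin (C.prod D).cells) : ∀ᵐ x ∂((C.prod D).cellMeas p), 0 < x := by
  have hm : Measurable (fun z : ℝ × ℝ => z.1 + z.2) := by fun_prop
  have h2 := C.cell_finite hS (C.pe D p).1
  have h3 := D.cell_finite hS (C.pe D p).2
  rw [C.prod_cell D hS hM p]
  refine (ae_map_iff hm.aemeasurable (p := fun x : ℝ => 0 < x) measurableSet_Ioi).mpr ?_
  have e1 := (Measure.quasiMeasurePreserving_fst (μ := C.cellMeas (C.pe D p).1)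
    (ν := D.cellMeas (C.pe D p).2)).ae (C.cell_pos hS hM hac _)
  have e2 := (Measure.quasiMeasurePreserving_snd (μ := C.cellMeas (C.pe D p).1)
    (ν := D.cellMeas (C.pe D p).2)).ae (D.cell_ae hS _)
  filter_upwards [e1, e2] with z hz1 hz2
  linarith [hz1.1, hz2.1]

theorem prod_cell_zero (p : Fin (C.prod D).cells) : (C.prod D).cellMeas p {0} = 0 := by
  have h := C.prod_pos D hS hM hac hL p
  rw [ae_iff] at h
  refine measure_mono_null ?_ h
  intro x hx
  rw [Set.mem_singleton_iff] at hx
  simp [hx]

theorem prod_integral (p : Fin (C.prod D).cells) :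
    ∫ x in Set.Ioi (0 : ℝ), Real.log x ∂((C.prod D).cellMeas p)
      = ∫ z, Real.log (z.1 + z.2) ∂((C.cellMeas (C.pe D p).1).prod (D.cellMeas (C.pe D p).2)) := by
  have hm : Measurable (fun z : ℝ × ℝ => z.1 + z.2) := by fun_prop
  have h2 : ((C.prod D).cellMeas p).restrict (Set.Ioi 0) = (C.prod D).cellMeas p := by
    apply Measure.restrict_eq_self_of_ae_mem
    exact C.prod_pos D hS hM hac hL p
  rw [h2, C.prod_cell D hS hM p, integral_map hm.aemeasurable
    Real.measurable_log.aestronglyMeasurable]

theorem prod_log (p : Fin (C.prod D).cells) :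
    IntegrableOn Real.log (Set.Ioi 0) ((C.prod D).cellMeas p) := by
  have hm : Measurable (fun z : ℝ × ℝ => z.1 + z.2) := by fun_prop
  apply Integrable.integrableOn
  rw [C.prod_cell D hS hM p, integrable_map_measure Real.measurable_log.aestronglyMeasurable
    hm.aemeasurable]
  exact C.log_add_integrable D hS hM hac hL _ _

/-- The tensor product of an `L²`-acyclic complex with any complex is `L²`-acyclic. -/
theorem prod_l2betti (n : ℕ) : (C.prod D).l2betti n = 0 :=
  (C.prod D).l2betti_zero hS hM (C.prod_cell_zero D hS hM hac hL) n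

/-- The `L²`-torsion of the tensor product of an `L²`-acyclic complex with any complex. -/
theorem prod_l2torsion : (C.prod D).l2torsion = (D.euler : ℝ) * C.l2torsion := by
  have hfC : ∀ a, IsFiniteMeasure (C.cellMeas a) := C.cell_finite hS
  have hfD : ∀ a, IsFiniteMeasure (D.cellMeas a) := D.cell_finite hS
  rw [(C.prod D).l2torsion_eq hS hM (C.prod_log D hS hM hac hL), C.l2torsion_eq hS hM hL]
  set F : Fin C.cells → Fin D.cells → ℝ := fun a b =>
    ∫ z, Real.log (z.1 + z.2) ∂((C.cellMeas a).prod (D.cellMeas b)) with hF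
  set L : Fin C.cells → ℝ := fun a => ∫ x, Real.log x ∂(C.cellMeas a) with hLdef
  have e0 : ∑ p, (-1 : ℝ) ^ (C.prod D).deg p * (((C.prod D).deg p : ℝ) *
      ∫ x in Set.Ioi (0 : ℝ), Real.log x ∂((C.prod D).cellMeas p))
      = ∑ q : Fin C.cells × Fin D.cells, (-1 : ℝ) ^ (C.deg q.1 + D.deg q.2) *
        (((C.deg q.1 + D.deg q.2 : ℕ) : ℝ) * F q.1 q.2) := by
    refine Fintype.sum_equiv (C.pe D) _ _ fun p => ?_
    rw [C.prod_integral D hS hM hac hL, prod_deg]
  -- summing over the cells of `D`
  have e1 : ∀ a, ∑ b, (-1 : ℝ) ^ D.deg b * F a b = (D.euler : ℝ) * L a := by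
    intro a
    have h1 : ∀ b, F a b = ∫ x, ∫ y, Real.log (x + y) ∂(D.cellMeas b) ∂(C.cellMeas a) := fun b =>
      integral_prod _ (C.log_add_integrable D hS hM hac hL a b)
    have h2 : ∀ b, Integrable (fun x => ∫ y, Real.log (x + y) ∂(D.cellMeas b)) (C.cellMeas a) :=
      fun b => (C.log_add_integrable D hS hM hac hL a b).integral_prod_left
    calc ∑ b, (-1 : ℝ) ^ D.deg b * F a b
        = ∫ x, ∑ b, (-1 : ℝ) ^ D.deg b * ∫ y, Real.log (x + y) ∂(D.cellMeas b) ∂(C.cellMeas a) := by
          rw [integral_finsetSum _ (fun b _ => (h2 b).const_mul _)]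
          refine Finset.sum_congr rfl fun b _ => ?_
          rw [integral_const_mul, h1]
      _ = ∫ x, (D.euler : ℝ) * Real.log x ∂(C.cellMeas a) := by
          apply integral_congr_ae
          filter_upwards [C.cell_pos hS hM hac a] with x hx
          have h3 := D.alt_integral hS hM (f := fun y => Real.log (x + y)) ?_
          · rw [add_zero] at h3
            exact h3
          · intro b
            have hc : Continuous (fun y : ℝ => Real.log (max (x + y) x)) := by
              apply Continuous.log (by fun_prop)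
              intro y
              exact (lt_of_lt_of_le hx.1 (le_max_right _ _)).ne'
            refine (integrable_cont _ (D.cell_supp hS b) hc).congr ?_
            filter_upwards [D.cell_ae hS b] with y hy
            rw [max_eq_left (by linarith [hy.1])]
      _ = (D.euler : ℝ) * L a := integral_const_mul _ _
  -- summing over the cells of `C`
  have e2 : ∀ b, ∑ a, (-1 : ℝ) ^ C.deg a * F a b = 0 := by
    intro b
    have h1 : ∀ a, F a b = ∫ y, ∫ x, Real.log (x + y) ∂(C.cellMeas a) ∂(D.cellMeas b) := fun a =>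
      integral_prod_symm _ (C.log_add_integrable D hS hM hac hL a b)
    have h2 : ∀ a, Integrable (fun y => ∫ x, Real.log (x + y) ∂(C.cellMeas a)) (D.cellMeas b) :=
      fun a => (C.log_add_integrable D hS hM hac hL a b).integral_prod_right
    calc ∑ a, (-1 : ℝ) ^ C.deg a * F a b
        = ∫ y, ∑ a, (-1 : ℝ) ^ C.deg a * ∫ x, Real.log (x + y) ∂(C.cellMeas a) ∂(D.cellMeas b) := by
          rw [integral_finsetSum _ (fun a _ => (h2 a).const_mul _)]
          refine Finset.sum_congr rfl fun a _ => ?_
          rw [integral_const_mul, h1]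
      _ = ∫ y, 0 ∂(D.cellMeas b) := by
          apply integral_congr_ae
          filter_upwards [D.cell_ae hS b] with y hy
          have h3 := C.alt_integral hS hM (f := fun x => Real.log (x + y)) ?_
          · rw [C.euler_zero hS hM hac] at h3
            rw [h3]
            simp
          · intro a
            have h4 : Integrable (fun x : ℝ => |Real.log x| + |Real.log (‖C.laplacian‖ + y)|)
                (C.cellMeas a) := (C.cell_log hS hM hac hL a).abs.add (integrable_const _)
            refine h4.mono' (Real.measurable_log.comp (by fun_prop)).aestronglyMeasurable ?_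
            filter_upwards [C.cell_pos hS hM hac a] with x hx
            have h5 : Real.log x ≤ Real.log (x + y) := Real.log_le_log hx.1 (by linarith [hy.1])
            have h6 : Real.log (x + y) ≤ Real.log (‖C.laplacian‖ + y) :=
              Real.log_le_log (by linarith [hx.1, hy.1]) (by linarith [hx.2])
            rw [Real.norm_eq_abs, abs_le]
            have := neg_abs_le (Real.log x)
            have := le_abs_self (Real.log (‖C.laplacian‖ + y))
            have := abs_nonneg (Real.log x)
            have := abs_nonneg (Real.log (‖C.laplacian‖ + y))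
            constructor <;> linarith
      _ = 0 := by simp
  rw [e0, Fintype.sum_prod_type]
  have e3 : ∑ a, ∑ b, (-1 : ℝ) ^ (C.deg a + D.deg b) * (((C.deg a + D.deg b : ℕ) : ℝ) * F a b)
      = ∑ a, (-1 : ℝ) ^ C.deg a * (C.deg a * ∑ b, (-1 : ℝ) ^ D.deg b * F a b)
        + ∑ b, (-1 : ℝ) ^ D.deg b * (D.deg b * ∑ a, (-1 : ℝ) ^ C.deg a * F a b) := by
    simp only [Finset.mul_sum]
    rw [Finset.sum_comm (s := (Finset.univ : Finset (Fin D.cells))), ← Finset.sum_add_distrib]
    refine Finset.sum_congr rfl fun a _ => ?_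
    rw [← Finset.sum_add_distrib]
    refine Finset.sum_congr rfl fun b _ => ?_
    push_cast
    rw [pow_add]
    ring
  simp only [e1, e2, mul_zero, Finset.sum_const_zero, add_zero] at e3
  rw [e3]
  simp only [C.setIntegral_log hS hM hac hL]
  have e4 : ∑ a, (-1 : ℝ) ^ C.deg a * ((C.deg a : ℝ) * ((D.euler : ℝ) * L a))
      = (D.euler : ℝ) * ∑ a, (-1 : ℝ) ^ C.deg a * ((C.deg a : ℝ) * L a) := by
    rw [Finset.mul_sum]
    exact Finset.sum_congr rfl fun a _ => by ring
  rw [e4]
  ring

end product

end Cx

end Pool.Agent.Y478.TG
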