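import Pool.Agent.Helper993.DeltaDef

/-!
# Torsion growth in finite covers and `L²`-torsion: definitions

A finite free based chain complex over the integral group ring of `G` is the cellular chain complex
of a free `G`-space with finitely many orbits of cells, for instance of the universal covering of a
closed manifold with fundamental group `G`.
-/

open scoped InnerProductSpace Topology

noncomputable section

namespace Pool.Agent.Y478.TG

open Pool.Agent.Helper993 MeasureTheory

/-! ### Finite chain complexes over a commutative ring

The cells are the elements of the finite type `I`, the cell `i` has dimension `deg i`, and the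
boundary of the cell `i` is the `i`-th row of the matrix `A`. Chains are row vectors. -/

section finite
variable {I R : Type} [Fintype I] [CommRing R]

/-- The `n`-chains: the row vectors supported on the cells of dimension `n`. -/
def chains (R : Type) [CommRing R] {I : Type} (deg : I → ℕ) (n : ℕ) : Submodule R (I → R) where
  carrier := {v | ∀ i, deg i ≠ n → v i = 0}
  add_mem' := by
    intro v w hv hw i hi
    rw [Pi.add_apply, hv i hi, hw i hi, add_zero]
  zero_mem' := fun _ _ => rfl
  smul_mem' := by
    intro c v hv i hi
    rw [Pi.smul_apply, hv i hi, smul_zero]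

/-- The `n`-cycles: the `n`-chains with boundary zero. -/
def cycles (deg : I → ℕ) (A : Matrix I I R) (n : ℕ) : Submodule R (I → R) :=
  chains R deg n ⊓ LinearMap.ker (Matrix.vecMulLinear A)

/-- The `n`-boundaries: the boundaries of the `(n + 1)`-chains. -/
def boundaries (deg : I → ℕ) (A : Matrix I I R) (n : ℕ) : Submodule R (I → R) :=
  (chains R deg (n + 1)).map (Matrix.vecMulLinear A)

/-- The dimension of the `n`-th homology (cycles modulo boundaries) over a field. -/
def betti {F : Type} [Field F] (deg : I → ℕ) (A : Matrix I I F) (n : ℕ) : ℕ :=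
  Module.finrank F (cycles deg A n ⧸ (boundaries deg A n).submoduleOf (cycles deg A n))

/-- The order of the torsion subgroup of the `n`-th homology group of an integral complex. -/
def torsOrder (deg : I → ℕ) (A : Matrix I I ℤ) (n : ℕ) : ℕ :=
  Delta.torsionCard (cycles deg A n) (boundaries deg A n)

end finite

/-! ### Complexes over the integral group ring -/

/-- A finite free based chain complex over `ℤ[G]`: `cells` is the number of `G`-orbits of cells, the
cell `a` has dimension `deg a`, and its boundary is the `a`-th row of the matrix `d`. -/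
structure Cx (G : Type) [Group G] where
  /-- the number of orbits of cells -/
  cells : ℕ
  /-- the dimensions of the cells -/
  deg : Fin cells → ℕ
  /-- the boundary matrix -/
  d : Matrix (Fin cells) (Fin cells) (MonoidAlgebra ℤ G)
  deg_eq : ∀ a b, d a b ≠ 0 → deg a = deg b + 1
  d_mul_d : d * d = 0

namespace Cx

variable {G H : Type} [Group G] [Group H] (C : Cx G) (D : Cx H)

/-- The Euler characteristic. -/
def euler : ℤ := ∑ a, (-1) ^ C.deg a

/-- The integral boundary matrix of the quotient by the normal subgroup `N`: its cells are the pairs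
`(a, x)` with `x` in `G ⧸ N`, and the coefficient of `(b, y)` in the boundary of `(a, x)` is the
coefficient of `x⁻¹ y` in the image of `d a b` in `ℤ[G ⧸ N]`. -/
def bd (N : Subgroup G) [N.Normal] :
    Matrix (Fin C.cells × (G ⧸ N)) (Fin C.cells × (G ⧸ N)) ℤ :=
  Matrix.of fun p q =>
    (MonoidAlgebra.mapDomain (QuotientGroup.mk' N) (C.d p.1 q.1)).coeff (p.2⁻¹ * q.2)

/-- The dimension of the `n`-th homology of the quotient by `N` with coefficients in `F`. -/
def betti (N : Subgroup G) [N.Normal] [N.FiniteIndex] (F : Type) [Field F] (n : ℕ) : ℕ :=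
  letI := Fintype.ofFinite (G ⧸ N)
  TG.betti (fun p => C.deg p.1) ((C.bd N).map (Int.castRingHom F)) n

/-- The order of the torsion subgroup of the `n`-th integral homology of the quotient by `N`. -/
def tors (N : Subgroup G) [N.Normal] [N.FiniteIndex] (n : ℕ) : ℕ :=
  letI := Fintype.ofFinite (G ⧸ N)
  torsOrder (fun p => C.deg p.1) (C.bd N) n

/-- The boundary operator on the Hilbert space of the square summable chains. -/
def l2d : FK.L2Pow G C.cells →L[ℂ] FK.L2Pow G C.cells :=
  FK.rMul (C.d.map (MonoidAlgebra.mapRingHom G (Int.castRingHom ℚ)))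

/-- The combinatorial Laplacian `∂ ∂* + ∂* ∂`. -/
def laplacian : FK.L2Pow G C.cells →L[ℂ] FK.L2Pow G C.cells := Delta.bothWays C.l2d C.l2d

/-- The spectral measure of the Laplacian on `n`-chains for the von Neumann trace, which is the sum
of the `⟪a, · a⟫` over the `n`-cells `a`. -/
def specMeas (n : ℕ) : Measure ℝ :=
  FK.spectralMeasure (fun a => if C.deg a = n then FK.unitVec a else 0) C.laplacian

/-- The `n`-th `L²`-Betti number: the mass of zero of the spectral measure. -/
def l2betti (n : ℕ) : ℝ := (C.specMeas n).real {0}

/-- The `L²`-torsion `-(1/2) ∑ (-1)^n n log det Δ_n`, where `log det Δ_n` (Fuglede-Kadison) is the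
integral of the logarithm over `(0, ∞)` with respect to the spectral measure. -/
def l2torsion : ℝ :=
  -(1 / 2) * ∑ n ∈ Finset.univ.image C.deg,
    (-1) ^ n * n * ∫ x in Set.Ioi (0 : ℝ), Real.log x ∂(C.specMeas n)

end Cx

/-! ### Products -/

/-- The boundary matrix of the tensor product of two complexes: the boundary of `i ⊗ j` is
`∂ i ⊗ j + (-1)^deg i • i ⊗ ∂ j`. -/
def tens {I J R : Type} [DecidableEq I] [DecidableEq J] [Ring R] (deg : I → ℕ)
    (A : Matrix I I R) (B : Matrix J J R) : Matrix (I × J) (I × J) R :=
  Matrix.of fun p q => (if p.2 = q.2 then A p.1 q.1 else 0) +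
    (if p.1 = q.1 then (-1) ^ deg p.1 * B p.2 q.2 else 0)

end Pool.Agent.Y478.TG
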