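import Pool.Agent.Y478.TG.Alt

/-!
# `L²`-acyclicity and injectivity of the Laplacian; determinant class
-/

open scoped InnerProductSpace Topology

noncomputable section

namespace Pool.Agent.Y478.TG

open Pool.Agent.Helper993 MeasureTheory Filter

namespace Cx

variable {G H : Type} [Group G] [Group H] (C : Cx G) (D : Cx H)

theorem lapQ_eq : C.lapZ.map FK.toQ = C.d.map FK.toQ * FK.adjQ (C.d.map FK.toQ)
      + FK.adjQ (C.d.map FK.toQ) * C.d.map FK.toQ := by
  rw [← FK.toQ_adjZ, ← FK.toQ_mul, ← FK.toQ_mul]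
  ext1 i j
  exact map_add (MonoidAlgebra.mapRingHom G (Int.castRingHom ℚ)) _ _

theorem rMul_two_nonneg {Q : Type} [Group Q] {r : ℕ}
    (A : Matrix (Fin r) (Fin r) (MonoidAlgebra ℚ Q)) :
    0 ≤ FK.rMul (A * FK.adjQ A + FK.adjQ A * A) := by
  rw [rMul_add]
  refine add_nonneg (FK.rMul_self_nonneg A) ?_
  rw [FK.rMul_mul, ← FK.adjoint_rMul, ContinuousLinearMap.nonneg_iff_isPositive]
  exact ContinuousLinearMap.isPositive_self_comp_adjoint _

theorem mq_lap (N : Subgroup G) [N.Normal] : FK.mq N (C.lapZ.map FK.toQ)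
    = FK.mq N (C.d.map FK.toQ) * FK.adjQ (FK.mq N (C.d.map FK.toQ))
      + FK.adjQ (FK.mq N (C.d.map FK.toQ)) * FK.mq N (C.d.map FK.toQ) := by
  rw [lapQ_eq, ← FK.mq_adjQ, ← FK.mq_mul, ← FK.mq_mul, FK.mq_eq, FK.mq_eq, FK.mq_eq]
  ext1 i j
  exact map_add (MonoidAlgebra.mapDomainRingHom ℚ (QuotientGroup.mk' N)) _ _

theorem traceVal_single_le (a : Fin C.cells) {f : ℝ → ℝ} (hf : ∀ x, 0 ≤ f x) :
    FK.traceVal (fun _ : Fin 1 => (FK.unitVec a : FK.L2Pow G C.cells)) C.laplacian f
      ≤ FK.traceVal FK.unitVec C.laplacian f := by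
  unfold FK.traceVal
  simp only [Finset.univ_unique, Finset.sum_singleton]
  refine Finset.single_le_sum (f := fun i : Fin C.cells =>
    (⟪(FK.unitVec i : FK.L2Pow G C.cells), cfc f C.laplacian (FK.unitVec i)⟫_ℂ).re)
    (fun i _ => ?_) (Finset.mem_univ a)
  have h1 : (0 : FK.L2Pow G C.cells →L[ℂ] FK.L2Pow G C.cells) ≤ cfc f C.laplacian :=
    cfc_nonneg (fun x _ => hf x)
  exact ((ContinuousLinearMap.nonneg_iff_isPositive _).mp h1).re_inner_nonneg_right _

section
variable (hS : SpecStmt) (hM : MomStmt)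

include hS

theorem trace_bump (a : Fin C.cells) (δ : ℝ) :
    FK.traceVal (fun _ : Fin 1 => (FK.unitVec a : FK.L2Pow G C.cells)) C.laplacian (FK.bump δ)
      = ∫ x, FK.bump δ x ∂(C.cellMeas a) := by
  rw [Cx.cellMeas, (hS _ 1 _ C.laplacian C.laplacian_nonneg).2.2 _ (FK.bump_continuous δ)]

/-- If the Laplacian is injective then the spectral measures have no mass at zero. -/
theorem cell_zero_of_inj (hinj : ∀ v, C.laplacian v = 0 → v = 0) (a : Fin C.cells) :
    C.cellMeas a {0} = 0 := by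
  have hfin := C.cell_finite hS a
  rw [← measureReal_eq_zero_iff]
  apply le_antisymm _ measureReal_nonneg
  apply le_of_forall_pos_le_add
  intro ε hε
  obtain ⟨δ, hδ, hb⟩ := FK.bump_small (fun _ : Fin 1 => (FK.unitVec a : FK.L2Pow G C.cells))
    (fun _ => (FK.norm_unitVec a).le) C.laplacian C.laplacian_nonneg hinj hε
  rw [C.trace_bump hS] at hb
  have h1 : (C.cellMeas a).real {0} = ∫ x, Set.indicator {0} (fun _ => (1 : ℝ)) x ∂(C.cellMeas a) := by
    rw [integral_indicator (measurableSet_singleton 0), setIntegral_const]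
    simp
  rw [h1, zero_add]
  refine le_trans (integral_mono ((integrable_const 1).indicator (measurableSet_singleton 0))
    (integrable_cont _ (C.cell_supp hS a) (FK.bump_continuous δ)) ?_) hb
  intro x
  by_cases hx : x = 0
  · simp [hx, FK.bump_zero]
  · simp [hx, FK.bump_nonneg]

/-- If the spectral measures have no mass at zero then the Laplacian is injective. -/
theorem inj_of_cell_zero (h : ∀ a, C.cellMeas a {0} = 0) : ∀ v, C.laplacian v = 0 → v = 0 := by
  have key : ∀ w, C.laplacian w = 0 → ∀ a, FK.coord w a 1 = 0 := by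
    intro w hw a
    have hfin := C.cell_finite hS a
    have h1 : Tendsto (fun n : ℕ => ∫ x, FK.bump (1 / ((n : ℝ) + 1)) x ∂(C.cellMeas a)) atTop
        (𝓝 (∫ _, (0 : ℝ) ∂(C.cellMeas a))) := by
      refine tendsto_integral_of_dominated_convergence (fun _ => (1 : ℝ)) ?_ (integrable_const 1)
        ?_ ?_
      · intro n
        exact (FK.bump_continuous _).aestronglyMeasurable
      · intro n
        refine Eventually.of_forall fun x => ?_
        rw [Real.norm_eq_abs, abs_of_nonneg (FK.bump_nonneg _ _)]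
        exact FK.bump_le_one _ _
      · have h0 : ∀ᵐ x ∂(C.cellMeas a), x ≠ 0 := by
          rw [ae_iff]
          simpa using h a
        filter_upwards [C.cell_ae hS a, h0] with x hx hx0
        have hpos : 0 < x := lt_of_le_of_ne hx.1 hx0.symm
        apply tendsto_const_nhds.congr'
        obtain ⟨m, hm⟩ := exists_nat_ge (1 / x)
        filter_upwards [eventually_ge_atTop m] with n hn
        symm
        apply FK.bump_of_le (by positivity)
        rw [div_le_iff₀ (by positivity)]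
        have h2 : (m : ℝ) ≤ n := by exact_mod_cast hn
        rw [div_le_iff₀ hpos] at hm
        nlinarith
    have h2 : ∀ n : ℕ, ‖⟪(FK.unitVec a : FK.L2Pow G C.cells), w⟫_ℂ‖ ^ 2
        ≤ (∫ x, FK.bump (1 / ((n : ℝ) + 1)) x ∂(C.cellMeas a)) * ‖w‖ ^ 2 := by
      intro n
      rw [← C.trace_bump hS]
      exact FK.inner_ker_le (fun _ : Fin 1 => (FK.unitVec a : FK.L2Pow G C.cells)) C.laplacian
        C.laplacian_nonneg _ w hw 0
    have h3 := ge_of_tendsto' (h1.mul_const (‖w‖ ^ 2)) h2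
    rw [integral_zero, zero_mul] at h3
    have h4 : ‖⟪(FK.unitVec a : FK.L2Pow G C.cells), w⟫_ℂ‖ = 0 := by
      have := norm_nonneg (⟪(FK.unitVec a : FK.L2Pow G C.cells), w⟫_ℂ)
      nlinarith [sq_nonneg ‖⟪(FK.unitVec a : FK.L2Pow G C.cells), w⟫_ℂ‖]
    rw [norm_eq_zero, FK.inner_unitVec] at h4
    exact h4
  intro w hw
  apply FK.coord_ext
  intro j g
  rw [FK.coord_zero]
  obtain ⟨w', hw'⟩ := FK.exists_translate w g
  have h1 : C.laplacian w' = 0 := by
    rw [laplacian_eq] at hw ⊢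
    apply FK.coord_ext
    intro k h
    rw [FK.coord_zero, FK.rMul_apply]
    have := congrArg (fun x => FK.coord x k (g * h)) hw
    simp only [FK.coord_zero, FK.rMul_apply] at this
    rw [← this]
    simp only [hw', mul_assoc]
  have h2 := key w' h1 j
  rwa [hw', mul_one] at h2

include hM

theorem acyclic_iff : (∀ n, C.l2betti n = 0) ↔ ∀ v, C.laplacian v = 0 → v = 0 :=
  ⟨fun h => C.inj_of_cell_zero hS (C.cell_zero hS hM h),
    fun h => C.l2betti_zero hS hM (C.cell_zero_of_inj hS h)⟩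

end

end Cx

/-- Determinant class. -/
theorem det_stmt : DetStmt := by
  intro X hinj a
  have hr : NeZero X.C.cells := ⟨fun h => by
    have := a.isLt
    omega⟩
  have hfq : ∀ i, Finite (X.G ⧸ X.N i) := fun i => inferInstance
  have hinj' : ∀ v, FK.rMul (X.C.lapZ.map FK.toQ) v = 0 → v = 0 := by
    rw [← X.C.laplacian_eq]; exact hinj
  have hS : 0 ≤ FK.rMul (X.C.lapZ.map FK.toQ) := by
    rw [← X.C.laplacian_eq]; exact X.C.laplacian_nonneg
  have hSi : ∀ i, 0 ≤ FK.rMul (FK.mq (X.N i) (X.C.lapZ.map FK.toQ)) := by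
    intro i
    rw [X.C.mq_lap]
    exact Cx.rMul_two_nonneg _
  refine FK.log_integrable _ X.C.laplacian X.C.laplacian_nonneg
    (C := 2 * X.C.cells * Real.log (FK.KK X.C.lapZ)) fun n => ?_
  refine (X.C.traceVal_single_le a (fun x => FK.gm_nonneg (Nat.cast_nonneg n) x)).trans ?_
  rw [X.C.laplacian_eq]
  exact FK.traceVal_gm_le X.N X.anti X.inf X.C.lapZ hS hSi hinj' (Nat.cast_nonneg n)

end Pool.Agent.Y478.TG
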