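import Pool.Agent.Y478.TG.Stm

/-!
# The Laplacian as an integral matrix, and its moments
-/

open scoped InnerProductSpace Topology

noncomputable section

namespace Pool.Agent.Y478.TG

open Pool.Agent.Helper993 MeasureTheory Filter

section inv
variable {G H : Type} [Group G] [Group H]

/-- the involution of the integral group ring -/
def iv (x : MonoidAlgebra ℤ G) : MonoidAlgebra ℤ G := MonoidAlgebra.mapDomain (fun g => g⁻¹) x

theorem iv_add (x y : MonoidAlgebra ℤ G) : iv (x + y) = iv x + iv y :=
  MonoidAlgebra.mapDomain_add _ _ _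

theorem iv_zero : iv (0 : MonoidAlgebra ℤ G) = 0 := MonoidAlgebra.mapDomain_zero _

theorem iv_single (g : G) (n : ℤ) : iv (MonoidAlgebra.single g n) = MonoidAlgebra.single g⁻¹ n :=
  MonoidAlgebra.mapDomain_single

theorem iv_iv (x : MonoidAlgebra ℤ G) : iv (iv x) = x := by
  induction x using MonoidAlgebra.induction_linear with
  | zero => rw [iv_zero, iv_zero]
  | add a b ha hb => rw [iv_add, iv_add, ha, hb]
  | single g n => rw [iv_single, iv_single, inv_inv]

theorem iv_eq_zero {x : MonoidAlgebra ℤ G} (h : iv x = 0) : x = 0 := by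
  rw [← iv_iv x, h, iv_zero]

theorem iv_neg (x : MonoidAlgebra ℤ G) : iv (-x) = -iv x := by
  have h := iv_add x (-x)
  rw [add_neg_cancel, iv_zero] at h
  exact eq_neg_of_add_eq_zero_right h.symm

theorem iv_sign (k : ℕ) (x : MonoidAlgebra ℤ G) : iv ((-1) ^ k * x) = (-1) ^ k * iv x := by
  rcases neg_one_pow_eq_or (MonoidAlgebra ℤ G) k with h | h
  · rw [h, one_mul, one_mul]
  · rw [h, neg_one_mul, neg_one_mul, iv_neg]

theorem iv_inl (x : MonoidAlgebra ℤ G) : iv (inl G H x) = inl G H (iv x) := by
  induction x using MonoidAlgebra.induction_linear with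
  | zero => rw [iv_zero, map_zero, iv_zero]
  | add a b ha hb => rw [iv_add, map_add, map_add, iv_add, ha, hb]
  | single g n => rw [iv_single, inl_single, inl_single, iv_single]; simp

theorem iv_inr (x : MonoidAlgebra ℤ H) : iv (inr G H x) = inr G H (iv x) := by
  induction x using MonoidAlgebra.induction_linear with
  | zero => rw [iv_zero, map_zero, iv_zero]
  | add a b ha hb => rw [iv_add, map_add, map_add, iv_add, ha, hb]
  | single g n => rw [iv_single, inr_single, inr_single, iv_single]; simp

theorem adjZ_apply {r s : ℕ} (A : Matrix (Fin r) (Fin s) (MonoidAlgebra ℤ G)) (i : Fin s)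
    (j : Fin r) : FK.adjZ A i j = iv (A j i) := rfl

/-- the coefficient of `1` is a trace -/
theorem coeff_one_mul_comm (x y : MonoidAlgebra ℤ G) : (x * y).coeff 1 = (y * x).coeff 1 := by
  induction x using MonoidAlgebra.induction_linear with
  | zero => simp
  | add a b ha hb => rw [add_mul, mul_add, MonoidAlgebra.coeff_add, MonoidAlgebra.coeff_add,
      Finsupp.add_apply, Finsupp.add_apply, ha, hb]
  | single g n =>
    induction y using MonoidAlgebra.induction_linear with
    | zero => simp
    | add a b ha hb => rw [add_mul, mul_add, MonoidAlgebra.coeff_add, MonoidAlgebra.coeff_add,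
        Finsupp.add_apply, Finsupp.add_apply, ha, hb]
    | single h m =>
      classical
      rw [MonoidAlgebra.single_mul_single, MonoidAlgebra.single_mul_single,
        MonoidAlgebra.coeff_single, MonoidAlgebra.coeff_single, Finsupp.single_apply,
        Finsupp.single_apply, mul_comm n m]
      have : g * h = 1 ↔ h * g = 1 := mul_eq_one_iff_eq_inv.trans
        ⟨fun e => by rw [e]; simp, fun e => eq_inv_of_mul_eq_one_right e⟩
      simp only [this]

theorem coeff_one_inl_inr (x : MonoidAlgebra ℤ G) (y : MonoidAlgebra ℤ H) :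
    (inl G H x * inr G H y).coeff 1 = x.coeff 1 * y.coeff 1 := by
  induction x using MonoidAlgebra.induction_linear with
  | zero => simp
  | add a b ha hb => rw [map_add, add_mul, MonoidAlgebra.coeff_add, MonoidAlgebra.coeff_add,
      Finsupp.add_apply, Finsupp.add_apply, ha, hb, add_mul]
  | single g n =>
    induction y using MonoidAlgebra.induction_linear with
    | zero => simp
    | add a b ha hb => rw [map_add, mul_add, MonoidAlgebra.coeff_add, MonoidAlgebra.coeff_add,
        Finsupp.add_apply, Finsupp.add_apply, ha, hb, mul_add]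
    | single h m =>
      classical
      rw [inl_single, inr_single, MonoidAlgebra.single_mul_single,
        MonoidAlgebra.coeff_single, MonoidAlgebra.coeff_single, MonoidAlgebra.coeff_single,
        Finsupp.single_apply, Finsupp.single_apply, Finsupp.single_apply]
      simp only [Prod.mk_mul_mk, mul_one, one_mul, Prod.mk_eq_one]
      by_cases h1 : g = 1 <;> by_cases h2 : h = 1 <;> simp [h1, h2]

end inv

section rmul
variable {G : Type} [Group G] {r s : ℕ}

theorem rMul_add (A B : Matrix (Fin r) (Fin s) (MonoidAlgebra ℚ G)) :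
    FK.rMul (A + B) = FK.rMul A + FK.rMul B := by
  rw [FK.rMul_eq_sc, FK.rMul_eq_sc, FK.rMul_eq_sc, ← Finset.sum_add_distrib]
  refine Finset.sum_congr rfl fun i _ => ?_
  rw [← Finset.sum_add_distrib]
  refine Finset.sum_congr rfl fun j _ => ?_
  rw [Matrix.add_apply, FK.sc_add]

theorem rMul_one : FK.rMul (1 : Matrix (Fin r) (Fin r) (MonoidAlgebra ℚ G)) = 1 := by
  ext x
  apply FK.coord_ext
  intro j h
  classical
  rw [FK.rMul_apply, Finset.sum_eq_single j]
  · rw [Matrix.one_apply_eq, Finset.sum_eq_single 1]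
    · simp [MonoidAlgebra.one_def]
    · intro g _ hg
      simp [MonoidAlgebra.one_def, hg]
    · intro hg
      rw [Finsupp.notMem_support_iff] at hg
      rw [hg]; simp
  · intro i _ hi
    rw [Matrix.one_apply_ne hi]
    simp
  · simp

theorem rMul_pow (A : Matrix (Fin r) (Fin r) (MonoidAlgebra ℚ G)) (k : ℕ) :
    FK.rMul (A ^ k) = (FK.rMul A) ^ k := by
  induction k with
  | zero => rw [pow_zero, pow_zero, rMul_one]
  | succ k ih =>
    rw [pow_succ', pow_succ, FK.rMul_mul, ih]
    rfl

end rmul

namespace Cx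

variable {G H : Type} [Group G] [Group H] (C : Cx G) (D : Cx H)

/-- the integral matrix of the Laplacian -/
def lapZ : Matrix (Fin C.cells) (Fin C.cells) (MonoidAlgebra ℤ G) :=
  C.d * FK.adjZ C.d + FK.adjZ C.d * C.d

theorem laplacian_eq : C.laplacian = FK.rMul (C.lapZ.map FK.toQ) := by
  have e1 : C.lapZ.map FK.toQ = C.d.map FK.toQ * FK.adjQ (C.d.map FK.toQ)
      + FK.adjQ (C.d.map FK.toQ) * C.d.map FK.toQ := by
    rw [← FK.toQ_adjZ, ← FK.toQ_mul, ← FK.toQ_mul]
    ext1 i j
    exact map_add (MonoidAlgebra.mapRingHom G (Int.castRingHom ℚ)) _ _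
  rw [e1, rMul_add, FK.rMul_mul, FK.rMul_mul, ← FK.adjoint_rMul, add_comm]
  rfl

theorem laplacian_nonneg : 0 ≤ C.laplacian := by
  unfold laplacian Delta.bothWays
  refine add_nonneg ?_ (FK.adjoint_comp_nonneg _)
  rw [ContinuousLinearMap.nonneg_iff_isPositive]
  exact ContinuousLinearMap.isPositive_self_comp_adjoint _

/-- the `k`-th moment of the spectral measure of the Laplacian at the cell `a` -/
def mom (a : Fin C.cells) (k : ℕ) : ℤ := ((C.lapZ ^ k) a a).coeff 1

theorem inner_laplacian_pow (a : Fin C.cells) (k : ℕ) :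
    ⟪(FK.unitVec a : FK.L2Pow G C.cells), (C.laplacian ^ k) (FK.unitVec a)⟫_ℂ = (C.mom a k : ℂ) := by
  have e : (C.lapZ ^ k).map FK.toQ = (C.lapZ.map FK.toQ) ^ k :=
    Matrix.map_pow C.lapZ (MonoidAlgebra.mapRingHom G (Int.castRingHom ℚ)) k
  rw [laplacian_eq, ← rMul_pow, ← e, FK.inner_rMul_unitVec, Matrix.map_apply, FK.toQ_coeff]
  simp [mom]

end Cx

end Pool.Agent.Y478.TG
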