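import Pool.Agent.Y478.TG.Main

/-!
# The consequences of the torsion limits of products
-/

open scoped InnerProductSpace Topology

noncomputable section

namespace Pool.Agent.Y478.TG

open Pool.Agent.Helper993 MeasureTheory Filter

namespace Tower

variable (X Y : Tower) {k m : ℕ}
variable (hKun : KunStmt) (hQpr : QprStmt) (hQcx : QcxStmt) (hLuc : LucStmt)

/-- The limit of the normalised logarithms of the torsion is positive. -/
theorem limit_pos (hX : ∀ n, X.C.l2betti n = 0) (hT : X.TorsionLimit k)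
    (hρ : X.C.l2torsion ≠ 0) : 0 < (-1) ^ k * X.C.l2torsion := by
  have h1 : 0 ≤ (-1) ^ k * X.C.l2torsion := by
    refine ge_of_tendsto' (hT hX) fun i => ?_
    exact div_nonneg (Real.log_natCast_nonneg _) (X.index_pos i).le
  refine lt_of_le_of_ne h1 ?_
  intro h
  rcases mul_eq_zero.mp h.symm with h2 | h2
  · exact absurd h2 (pow_ne_zero _ (by norm_num))
  · exact hρ h2

include hQpr hQcx in
/-- The Betti numbers of the second factor are bounded by its Euler characteristic. -/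
theorem betti_le (hX : ∀ n, X.C.l2betti n = 0) (hT : X.TorsionLimit k)
    (hρ : X.C.l2torsion ≠ 0) (h : (X.prod Y).TorsionLimit (k + m)) (ε : ℝ) (hε : 0 < ε) :
    ∀ᶠ i in atTop, (Y.betti ℚ i m : ℝ) / (Y.N i).index ≤ (-1) ^ m * (Y.C.euler : ℝ) + ε := by
  set t := (-1) ^ k * X.C.l2torsion with ht
  have htpos : 0 < t := X.limit_pos hX hT hρ
  have h1 := h (X.acyclic_prod Y hX)
  rw [X.l2torsion_prod Y hX] at h1
  have e1 : (-1 : ℝ) ^ (k + m) * ((Y.C.euler : ℝ) * X.C.l2torsion)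
      = ((-1) ^ m * (Y.C.euler : ℝ)) * t := by
    rw [ht, pow_add]; ring
  rw [e1] at h1
  have h2 := hT hX
  rw [← ht] at h2
  -- the quotient converges
  have h3 : Tendsto (fun i => (Real.log ((X.prod Y).C.tors ((X.prod Y).N i) (k + m))
      / ((X.prod Y).N i).index) / (Real.log (X.C.tors (X.N i) k) / ((X.N i).index : ℝ))) atTop
      (𝓝 ((((-1) ^ m * (Y.C.euler : ℝ)) * t) / t)) := h1.div h2 htpos.ne'
  rw [mul_div_cancel_right₀ _ htpos.ne'] at h3
  have h4 := h3.eventually_lt_const (show (-1) ^ m * (Y.C.euler : ℝ)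
    < (-1) ^ m * (Y.C.euler : ℝ) + ε by linarith)
  have h5 := h2.eventually_const_lt htpos
  filter_upwards [h4, h5] with i h6 h7
  have h8 := X.log_tors_prod Y hQpr hQcx i k m
  refine le_trans ?_ h6.le
  rw [le_div_iff₀ h7]
  exact h8

include hKun hQpr hQcx in
/-- The Betti number growth of an odd-dimensional factor vanishes. -/
theorem betti_tendsto (hX : ∀ n, X.C.l2betti n = 0) (hT : X.TorsionLimit k)
    (hρ : X.C.l2torsion ≠ 0) (hdim : ∀ b, Y.C.deg b ≤ 2 * m + 1)
    (hP : ∀ i, ∀ j ≤ 2 * m + 1, Y.betti ℚ i j = Y.betti ℚ i (2 * m + 1 - j))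
    (h : (X.prod (Y.prod Y)).TorsionLimit (k + (2 * m + 1))) (j : ℕ) :
    Tendsto (fun i => (Y.betti ℚ i j : ℝ) / (Y.N i).index) atTop (𝓝 0) := by
  rcases Nat.lt_or_ge (2 * m + 1) j with hj | hj
  · have h0 : ∀ i, Y.betti ℚ i j = 0 := fun i =>
      Y.betti_gt ℚ i j fun a => lt_of_le_of_lt (hdim a) hj
    simp [h0]
  · have h1 : ∀ i, (Y.betti ℚ i j : ℝ) ^ 2 ≤ ((Y.prod Y).betti ℚ i (2 * m + 1) : ℝ) := by
      intro i
      have e1 := Y.betti_prod Y hKun hQpr hQcx ℚ i (2 * m + 1)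
      have e2 := Finset.single_le_sum (f := fun a => Y.betti ℚ i a * Y.betti ℚ i (2 * m + 1 - a))
        (s := Finset.range (2 * m + 1 + 1)) (fun a _ => Nat.zero_le _)
        (Finset.mem_range.mpr (by omega : j < 2 * m + 1 + 1))
      rw [← e1] at e2
      simp only [← hP i j hj] at e2
      have e3 : Y.betti ℚ i j ^ 2 ≤ (Y.prod Y).betti ℚ i (2 * m + 1) := by
        rw [sq]; exact e2
      exact_mod_cast e3
    have h2 : ∀ i, ((Y.betti ℚ i j : ℝ) / (Y.N i).index) ^ 2
        ≤ ((Y.prod Y).betti ℚ i (2 * m + 1) : ℝ) / ((Y.prod Y).N i).index := by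
      intro i
      rw [index_prod, div_pow]
      push_cast
      rw [sq ((Y.N i).index : ℝ)]
      exact div_le_div_of_nonneg_right (h1 i) (mul_pos (Y.index_pos i) (Y.index_pos i)).le
    have hχ : (-1 : ℝ) ^ (2 * m + 1) * ((Y.prod Y).C.euler : ℝ) ≤ 0 := by
      have : (Y.prod Y).C.euler = Y.C.euler * Y.C.euler := Cx.euler_prod _ _
      rw [this, (Odd.neg_one_pow ⟨m, rfl⟩ : (-1 : ℝ) ^ (2 * m + 1) = -1)]
      push_cast
      nlinarith [mul_self_nonneg (Y.C.euler : ℝ)]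
    have h3 : Tendsto (fun i => ((Y.betti ℚ i j : ℝ) / (Y.N i).index) ^ 2) atTop (𝓝 0) := by
      rw [Metric.tendsto_atTop']
      intro ε hε
      have h4 := X.betti_le (Y.prod Y) hQpr hQcx hX hT hρ h (ε / 2) (by linarith)
      rw [eventually_atTop] at h4
      obtain ⟨i0, hi0⟩ := h4
      refine ⟨i0, fun i hi => ?_⟩
      have h5 := hi0 i hi.le
      rw [Real.dist_eq, sub_zero, abs_of_nonneg (sq_nonneg _)]
      linarith [h2 i]
    have h4 := h3.sqrt
    rw [Real.sqrt_zero] at h4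
    refine h4.congr fun i => ?_
    exact Real.sqrt_sq (div_nonneg (Nat.cast_nonneg _) (Y.index_pos i).le)

include hKun hQpr hQcx in
/-- The growth of the torsion ranks vanishes. -/
theorem tau_tendsto (hY : ∀ n, Y.C.l2betti n = 0) (p : ℕ) [Fact p.Prime]
    (hdim : ∀ b, Y.C.deg b ≤ 2 * m + 1)
    (hP : ∀ i, ∀ j ≤ 2 * m + 1, Y.betti ℚ i j = Y.betti ℚ i (2 * m + 1 - j))
    (hF : ∀ i, ∀ j ≤ 2 * m + 1, Y.betti (ZMod p) i j = Y.betti (ZMod p) i (2 * m + 1 - j))
    (h : ∀ r, 1 ≤ r → r ≤ max 1 m → (Y.oddPow r).TorsionLimit ((2 * r + 1) * m + r))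
    (τ : ℕ → ℕ → ℕ) (hτ : ∀ i, Rel (Y.betti ℚ i) (Y.betti (ZMod p) i) (τ i)) (j : ℕ) :
    Tendsto (fun i => (τ i j : ℝ) / (Y.N i).index) atTop (𝓝 0) := by
  have hdual : ∀ i, τ i (2 * m + 1) = 0 ∧ ∀ j ≤ 2 * m, τ i j = τ i (2 * m - j) := fun i =>
    dual (hτ i) m (hP i) (hF i) (Y.betti_gt _ i _ fun a => by have := hdim a; omega)
  -- low degrees
  have low : ∀ j ≤ m, Tendsto (fun i => (τ i j : ℝ) / (Y.N i).index) atTop (𝓝 0) := by
    intro j hj
    obtain ⟨r, hr1, hr2, hr3⟩ : ∃ r, 1 ≤ r ∧ m - j ≤ r ∧ r ≤ max 1 m :=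
      ⟨max 1 (m - j), le_max_left _ _, le_max_right _ _, max_le_max le_rfl (by omega)⟩
    have hT := h r hr1 hr3 (Y.acyclic_oddPow hY r)
    rw [Y.l2torsion_oddPow hY r hr1, mul_zero] at hT
    have key : ∀ i, (τ i j : ℝ) ^ (2 * r + 1) * Real.log p
        ≤ Real.log ((Y.oddPow r).C.tors ((Y.oddPow r).N i) ((2 * r + 1) * m + r)) := by
      intro i
      obtain ⟨σ, hσ, hσ2⟩ := (Y.oddPow r).exists_tau hQcx p i
      have k1 := Y.tau_oddPow hKun hQpr hQcx p i (hτ i) j (2 * m - j) r σ hσ (m + r - j)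
        (by omega)
      rw [← (hdual i).2 j (by omega)] at k1
      have k2 : (r + 1) * j + r * (2 * m - j) + (m + r - j) = (2 * r + 1) * m + r := by
        obtain ⟨c, rfl⟩ := Nat.exists_eq_add_of_le hj
        have e1 : 2 * (j + c) - j = j + 2 * c := by omega
        have e2 : j + c + r - j = c + r := by omega
        rw [e1, e2]
        ring
      rw [k2] at k1
      have k3 : (τ i j) ^ (2 * r + 1) ≤ σ ((2 * r + 1) * m + r) := by
        calc (τ i j) ^ (2 * r + 1) = τ i j ^ (r + 1) * τ i j ^ r := by ring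
          _ ≤ _ := k1
      have k4 : (p : ℝ) ^ (τ i j ^ (2 * r + 1))
          ≤ ((Y.oddPow r).C.tors ((Y.oddPow r).N i) ((2 * r + 1) * m + r) : ℝ) := by
        have hp : 1 ≤ p := (Fact.out : p.Prime).one_le
        have := (Nat.pow_le_pow_right hp k3).trans (hσ2 ((2 * r + 1) * m + r))
        exact_mod_cast this
      have k5 := Real.log_le_log (by
        have : (0 : ℝ) < p := by exact_mod_cast (Fact.out : p.Prime).pos
        positivity) k4
      rw [Real.log_pow] at k5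
      push_cast at k5
      exact k5
    have hlogp : 0 < Real.log p := Real.log_pos (by
      exact_mod_cast (Fact.out : p.Prime).one_lt)
    have h1 : Tendsto (fun i => ((τ i j : ℝ) / (Y.N i).index) ^ (2 * r + 1) * Real.log p) atTop
        (𝓝 0) := by
      refine squeeze_zero (fun i => ?_) (fun i => ?_) hT
      · exact mul_nonneg (pow_nonneg (div_nonneg (Nat.cast_nonneg _) (Y.index_pos i).le) _)
          hlogp.le
      · rw [index_oddPow, div_pow, div_mul_eq_mul_div]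
        push_cast
        exact div_le_div_of_nonneg_right (key i) (pow_pos (Y.index_pos i) _).le
    have h2 : Tendsto (fun i => ((τ i j : ℝ) / (Y.N i).index) ^ (2 * r + 1)) atTop (𝓝 0) := by
      have := h1.div_const (Real.log p)
      rw [zero_div] at this
      refine this.congr fun i => ?_
      rw [mul_div_assoc, div_self hlogp.ne', mul_one]
    rw [Metric.tendsto_atTop'] at h2 ⊢
    intro ε hε
    obtain ⟨i0, hi0⟩ := h2 (ε ^ (2 * r + 1)) (pow_pos hε _)
    refine ⟨i0, fun i hi => ?_⟩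
    have h3 := hi0 i hi
    have h4 : 0 ≤ (τ i j : ℝ) / (Y.N i).index := div_nonneg (Nat.cast_nonneg _) (Y.index_pos i).le
    rw [Real.dist_eq, sub_zero, abs_of_nonneg (pow_nonneg h4 _)] at h3
    rw [Real.dist_eq, sub_zero, abs_of_nonneg h4]
    exact lt_of_pow_lt_pow_left₀ _ hε.le h3
  rcases Nat.lt_or_ge (2 * m) j with hj | hj
  · -- above the dimension
    have hzero : ∀ i, ∀ c, τ i (2 * m + 1 + c) = 0 := by
      intro i c
      have h1 := (hτ i).2 (2 * m + 1 + c)
      have h2 := Y.betti_gt (ZMod p) i (2 * m + 1 + c + 1) fun a => by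
        have := hdim a; omega
      omega
    obtain ⟨c, rfl⟩ := Nat.exists_eq_add_of_lt hj
    have : ∀ i, τ i (2 * m + c + 1) = 0 := fun i => by
      have := hzero i c
      rwa [show 2 * m + 1 + c = 2 * m + c + 1 by ring] at this
    simp [this]
  · rcases Nat.lt_or_ge m j with hj2 | hj2
    · have h1 := low (2 * m - j) (by omega)
      refine h1.congr fun i => ?_
      rw [← (hdual i).2 j hj]
    · exact low j hj2

include hKun hQpr hQcx hLuc in
/-- **Main result.** -/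
theorem main (hX : ∀ n, X.C.l2betti n = 0) (hT : X.TorsionLimit k)
    (hρ : X.C.l2torsion ≠ 0) (hdim : ∀ b, Y.C.deg b ≤ 2 * m + 1)
    (hP : ∀ i, ∀ j ≤ 2 * m + 1, Y.betti ℚ i j = Y.betti ℚ i (2 * m + 1 - j))
    (h : (X.prod (Y.prod Y)).TorsionLimit (k + (2 * m + 1)))
    (h' : ∀ r, 1 ≤ r → r ≤ max 1 m → (Y.oddPow r).TorsionLimit ((2 * r + 1) * m + r)) :
    (∀ n, Y.C.l2betti n = 0) ∧
      ∀ (p : ℕ) [Fact p.Prime],
        (∀ i, ∀ j ≤ 2 * m + 1, Y.betti (ZMod p) i j = Y.betti (ZMod p) i (2 * m + 1 - j)) →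
        ∀ j, Tendsto (fun i => (Y.betti (ZMod p) i j : ℝ) / (Y.N i).index) atTop (𝓝 0) := by
  have h1 := X.betti_tendsto Y hKun hQpr hQcx hX hT hρ hdim hP h
  have h2 : ∀ n, Y.C.l2betti n = 0 :=
    (Y.C.acyclic_iff Pool.Agent.Y239.TG.Spec.t Pool.Agent.Y239.TG.Mom.t).mpr (hLuc Y h1)
  refine ⟨h2, ?_⟩
  intro p hp hF j
  choose τ hτ _ using fun i => Y.exists_tau hQcx p i
  have h3 := Y.tau_tendsto hKun hQpr hQcx h2 p hdim hP hF h' τ hτ
  rcases j with _ | j
  · have h4 := (h1 0).add (h3 0)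
    rw [add_zero] at h4
    refine h4.congr fun i => ?_
    rw [(hτ i).1]
    push_cast
    ring
  · have h4 := ((h1 (j + 1)).add (h3 (j + 1))).add (h3 j)
    rw [add_zero, add_zero] at h4
    refine h4.congr fun i => ?_
    rw [(hτ i).2 j]
    push_cast
    ring

end Tower

end Pool.Agent.Y478.TG
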