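import Mathlib

/-!
# Sequences: torsion ranks of a product, duality
-/

namespace Pool.Agent.Y478.TG

open PowerSeries

/-- The relation between the Betti numbers `P` over `ℚ`, `F` over `ZMod p`, and the torsion ranks. -/
def Rel (P F τ : ℕ → ℕ) : Prop := F 0 = P 0 + τ 0 ∧ ∀ n, F (n + 1) = P (n + 1) + τ (n + 1) + τ n

/-- the product of the generating functions -/
def Conv (P P' P'' : ℕ → ℕ) : Prop := ∀ n, P'' n = ∑ i ∈ Finset.range (n + 1), P i * P' (n - i)

/-- the generating function -/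
noncomputable def gen (P : ℕ → ℕ) : PowerSeries ℤ := PowerSeries.mk fun n => (P n : ℤ)

theorem coeff_gen_mul (P P' : ℕ → ℕ) (n : ℕ) :
    coeff n (gen P * gen P') = ∑ i ∈ Finset.range (n + 1), (P i : ℤ) * P' (n - i) := by
  rw [coeff_mul, Finset.Nat.sum_antidiagonal_eq_sum_range_succ
    (fun i j => coeff i (gen P) * coeff j (gen P'))]
  simp [gen]

theorem gen_conv {P P' P'' : ℕ → ℕ} (h : Conv P P' P'') : gen P'' = gen P * gen P' := by
  ext n
  rw [coeff_gen_mul, gen, coeff_mk, h n]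
  push_cast
  rfl

theorem gen_rel {P F τ : ℕ → ℕ} (h : Rel P F τ) : gen F = gen P + (1 + X) * gen τ := by
  ext n
  rw [add_mul, one_mul, map_add, map_add]
  rcases n with _ | n
  · simp [gen, h.1]
  · rw [coeff_succ_X_mul]
    simp only [gen, coeff_mk]
    rw [h.2 n]
    push_cast
    ring

theorem coeff_mul_ge (P P' : ℕ → ℕ) (a b : ℕ) :
    (P a : ℤ) * P' b ≤ coeff (a + b) (gen P * gen P') := by
  rw [coeff_gen_mul]
  have h := Finset.single_le_sum (f := fun i => (P i : ℤ) * P' (a + b - i))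
    (s := Finset.range (a + b + 1)) (fun i _ => by positivity)
    (Finset.mem_range.mpr (by omega : a < a + b + 1))
  simpa using h

theorem coeff_mul_nonneg (P P' : ℕ → ℕ) (n : ℕ) : 0 ≤ coeff n (gen P * gen P') := by
  rw [coeff_gen_mul]
  exact Finset.sum_nonneg fun i _ => by positivity

/-- The torsion ranks of a product. -/
theorem bin {P F τ P' F' τ' P'' F'' τ'' : ℕ → ℕ} (h : Rel P F τ) (h' : Rel P' F' τ')
    (h'' : Rel P'' F'' τ'') (hP : Conv P P' P'') (hF : Conv F F' F'') (a b δ : ℕ) (hδ : δ ≤ 1) :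
    τ a * τ' b ≤ τ'' (a + b + δ) := by
  have e1 := gen_rel h''
  rw [gen_conv hP, gen_conv hF, gen_rel h, gen_rel h'] at e1
  have e2 : (1 + X : PowerSeries ℤ) * gen τ'' = (1 + X) * (gen P * gen τ' + gen τ * gen P'
      + (1 + X) * (gen τ * gen τ')) := by linear_combination -e1
  have hne : (1 + X : PowerSeries ℤ) ≠ 0 := by
    intro h0
    have := congrArg (coeff 0) h0
    simp at this
  have e3 := mul_left_cancel₀ hne e2
  have e4 := congrArg (coeff (a + b + δ)) e3
  rw [map_add, map_add, add_mul, one_mul, map_add] at e4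
  have e5 : coeff (a + b + δ) (gen τ'') = (τ'' (a + b + δ) : ℤ) := by simp [gen]
  rw [e5] at e4
  have k1 := coeff_mul_nonneg P τ' (a + b + δ)
  have k2 := coeff_mul_nonneg τ P' (a + b + δ)
  have k3 := coeff_mul_nonneg τ τ' (a + b + δ)
  have k4 := coeff_mul_ge τ τ' a b
  rcases Nat.le_one_iff_eq_zero_or_eq_one.mp hδ with rfl | rfl
  · have k5 : 0 ≤ coeff (a + b + 0) (X * (gen τ * gen τ')) := by
      rcases Nat.eq_zero_or_pos (a + b + 0) with h0 | h0
      · rw [h0]; simp
      · obtain ⟨c, hc⟩ := Nat.exists_eq_succ_of_ne_zero h0.ne'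
        rw [hc, coeff_succ_X_mul]
        exact coeff_mul_nonneg τ τ' c
    have : ((τ a * τ' b : ℕ) : ℤ) ≤ (τ'' (a + b + 0) : ℤ) := by
      push_cast
      simp only [add_zero] at *
      linarith
    exact_mod_cast this
  · have k5 : coeff (a + b + 1) (X * (gen τ * gen τ')) = coeff (a + b) (gen τ * gen τ') :=
      coeff_succ_X_mul _ _
    have : ((τ a * τ' b : ℕ) : ℤ) ≤ (τ'' (a + b + 1) : ℤ) := by
      push_cast
      linarith
    exact_mod_cast this

/-- Duality of the torsion ranks. -/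
theorem dual {P F τ : ℕ → ℕ} (h : Rel P F τ) (m : ℕ)
    (hP : ∀ j ≤ 2 * m + 1, P j = P (2 * m + 1 - j)) (hF : ∀ j ≤ 2 * m + 1, F j = F (2 * m + 1 - j))
    (h0 : F (2 * m + 2) = 0) : τ (2 * m + 1) = 0 ∧ ∀ j ≤ 2 * m, τ j = τ (2 * m - j) := by
  have h1 : τ (2 * m + 1) = 0 := by
    have := h.2 (2 * m + 1)
    have h0' : F (2 * m + 1 + 1) = 0 := h0
    omega
  refine ⟨h1, ?_⟩
  intro j
  induction j with
  | zero =>
    intro _
    have e1 := h.1
    have e2 := h.2 (2 * m)
    have e3 := hP 0 (by omega)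
    have e4 := hF 0 (by omega)
    simp only [Nat.sub_zero] at *
    omega
  | succ j ih =>
    intro hj
    have e0 := ih (by omega)
    have e1 := h.2 j
    have e2 := h.2 (2 * m - (j + 1))
    have e3 := hP (j + 1) (by omega)
    have e4 := hF (j + 1) (by omega)
    have i1 : 2 * m + 1 - (j + 1) = 2 * m - (j + 1) + 1 := by omega
    have i2 : 2 * m - j = 2 * m - (j + 1) + 1 := by omega
    rw [i1] at e3 e4
    rw [i2] at e0
    omega

end Pool.Agent.Y478.TG
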