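import Pool.Agent.Y478.TG.Inj
import Pool.Agent.Y478.TG.Seq
import Pool.Agent.Y239.TG.Spec
import Pool.Agent.Y239.TG.Mom
import Pool.Agent.Y445.TG.Uct
import Pool.Agent.Y681.TG.Ret
import Pool.Agent.Y681.TG.Qpr
import Pool.Agent.Y655.TG.Kun
import Pool.Agent.Y407.TG.Luc

/-!
# Torsion growth of products
-/

open scoped InnerProductSpace Topology

noncomputable section

namespace Pool.Agent.Y478.TG

open Pool.Agent.Helper993 MeasureTheory Filter

section finite
variable {I J : Type}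

theorem toF_tens [DecidableEq I] [DecidableEq J] (F : Type) [Field F] (deg : I → ℕ)
    (A : Matrix I I ℤ) (B : Matrix J J ℤ) :
    toF F (tens deg A B) = tens deg (toF F A) (toF F B) := by
  ext p q
  simp only [toF, tens, Matrix.map_apply, Matrix.of_apply, map_add]
  congr 1
  · split_ifs <;> simp
  · split_ifs <;> simp

theorem toF_isCx [Fintype I] (F : Type) [Field F] {deg : I → ℕ} {A : Matrix I I ℤ}
    (h : IsCx deg A) : IsCx deg (toF F A) := by
  refine ⟨fun a b hab => h.1 a b fun h0 => hab ?_, ?_⟩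
  · rw [toF, Matrix.map_apply, h0, map_zero]
  · rw [toF, ← Matrix.map_mul, h.2]
    exact Matrix.map_zero _ (map_zero _)

theorem betti_zero [Fintype I] {F : Type} [Field F] (deg : I → ℕ) (A : Matrix I I F) (n : ℕ)
    (h : ∀ i, deg i ≠ n) : betti deg A n = 0 := by
  have h1 : cycles deg A n = ⊥ := by
    rw [eq_bot_iff]
    intro v hv
    rw [Submodule.mem_bot]
    funext i
    exact hv.1 i (h i)
  unfold betti
  have : Subsingleton (cycles deg A n) := by
    rw [h1]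
    infer_instance
  exact Module.finrank_zero_of_subsingleton

end finite

namespace Cx

variable {G H : Type} [Group G] [Group H] (C : Cx G) (D : Cx H)

theorem euler_prod : (C.prod D).euler = C.euler * D.euler := by
  unfold euler
  rw [Finset.sum_mul_sum, ← Fintype.sum_prod_type']
  refine Fintype.sum_equiv (C.pe D) _ _ fun p => ?_
  rw [prod_deg, pow_add]

end Cx

namespace Tower

variable (X Y : Tower)

theorem index_prod (i : ℕ) : ((X.prod Y).N i).index = (X.N i).index * (Y.N i).index :=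
  Subgroup.index_prod _ _

theorem index_pos (i : ℕ) : (0 : ℝ) < (X.N i).index := by
  have := (X.finiteIndex i).index_ne_zero
  exact_mod_cast Nat.pos_of_ne_zero this

theorem index_oddPow (r i : ℕ) : ((X.oddPow r).N i).index = (X.N i).index ^ (2 * r + 1) := by
  induction r with
  | zero =>
    rw [mul_zero, zero_add, pow_one]
    rfl
  | succ r ih =>
    rw [oddPow, index_prod, index_prod, ih]
    ring

theorem betti_gt (F : Type) [Field F] (i n : ℕ) (h : ∀ a, X.C.deg a < n) :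
    X.betti F i n = 0 := by
  let := Fintype.ofFinite (X.G ⧸ X.N i)
  exact betti_zero (fun p : Fin X.C.cells × (X.G ⧸ X.N i) => X.C.deg p.1)
    (toF F (X.C.bd (X.N i))) n fun p => (h p.1).ne

section l2

theorem log_of_acyclic (h : ∀ n, X.C.l2betti n = 0) (a : Fin X.C.cells) :
    IntegrableOn Real.log (Set.Ioi 0) (X.C.cellMeas a) :=
  det_stmt X ((X.C.acyclic_iff Pool.Agent.Y239.TG.Spec.t Pool.Agent.Y239.TG.Mom.t).mp h) a

theorem acyclic_prod (h : ∀ n, X.C.l2betti n = 0) (n : ℕ) : (X.prod Y).C.l2betti n = 0 :=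
  X.C.prod_l2betti Y.C Pool.Agent.Y239.TG.Spec.t Pool.Agent.Y239.TG.Mom.t h
    (X.log_of_acyclic h) n

theorem l2torsion_prod (h : ∀ n, X.C.l2betti n = 0) :
    (X.prod Y).C.l2torsion = (Y.C.euler : ℝ) * X.C.l2torsion :=
  X.C.prod_l2torsion Y.C Pool.Agent.Y239.TG.Spec.t Pool.Agent.Y239.TG.Mom.t h
    (X.log_of_acyclic h)

theorem euler_of_acyclic (h : ∀ n, X.C.l2betti n = 0) : X.C.euler = 0 :=
  X.C.euler_zero Pool.Agent.Y239.TG.Spec.t Pool.Agent.Y239.TG.Mom.t h

theorem acyclic_oddPow (h : ∀ n, X.C.l2betti n = 0) (r n : ℕ) : (X.oddPow r).C.l2betti n = 0 := by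
  induction r generalizing n with
  | zero => exact h n
  | succ r ih => exact acyclic_prod _ _ ih n

theorem l2torsion_oddPow (h : ∀ n, X.C.l2betti n = 0) (r : ℕ) (hr : 1 ≤ r) :
    (X.oddPow r).C.l2torsion = 0 := by
  obtain ⟨s, rfl⟩ := Nat.exists_eq_add_of_le' hr
  change ((X.oddPow s).prod (X.prod X)).C.l2torsion = 0
  rw [l2torsion_prod _ _ (X.acyclic_oddPow h s)]
  have h1 : (X.prod X).C.euler = 0 := by
    change (X.C.prod X.C).euler = 0
    rw [Cx.euler_prod, X.euler_of_acyclic h, zero_mul]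
  rw [h1]
  simp

end l2

section hom
variable (hKun : KunStmt) (hQpr : QprStmt) (hQcx : QcxStmt)

include hQcx in
theorem exists_tau (p : ℕ) [Fact p.Prime] (i : ℕ) : ∃ τ : ℕ → ℕ,
    Rel (X.betti ℚ i) (X.betti (ZMod p) i) τ ∧ ∀ n, p ^ τ n ≤ X.C.tors (X.N i) n := by
  classical
  let := Fintype.ofFinite (X.G ⧸ X.N i)
  obtain ⟨τ, h1, h2, h3⟩ := Pool.Agent.Y445.TG.t p (Fin X.C.cells × (X.G ⧸ X.N i))
    (fun q => X.C.deg q.1) (X.C.bd (X.N i)) (hQcx X.G X.C (X.N i))
  exact ⟨τ, ⟨h2, h3⟩, h1⟩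

include hKun hQpr hQcx in
theorem betti_prod (F : Type) [Field F] (i : ℕ) :
    Conv (X.betti F i) (Y.betti F i) ((X.prod Y).betti F i) := by
  classical
  intro n
  let := Fintype.ofFinite (X.G ⧸ X.N i)
  let := Fintype.ofFinite (Y.G ⧸ Y.N i)
  have : ((X.N i).prod (Y.N i)).FiniteIndex := (X.prod Y).finiteIndex i
  have h := (hQpr X.G Y.G X.C Y.C (X.N i) (Y.N i) n).2 F
  rw [toF_tens, hKun _ _ _ _ _ _ _ (toF_isCx F (hQcx X.G X.C (X.N i)))
    (toF_isCx F (hQcx Y.G Y.C (Y.N i)))] at h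
  exact h

include hQpr hQcx in
theorem tors_prod (i k m : ℕ) : X.C.tors (X.N i) k ^ Y.betti ℚ i m
    ≤ (X.prod Y).C.tors ((X.prod Y).N i) (k + m) := by
  classical
  let := Fintype.ofFinite (X.G ⧸ X.N i)
  let := Fintype.ofFinite (Y.G ⧸ Y.N i)
  have : ((X.N i).prod (Y.N i)).FiniteIndex := (X.prod Y).finiteIndex i
  have h := (hQpr X.G Y.G X.C Y.C (X.N i) (Y.N i) (k + m)).1
  have h2 := Pool.Agent.Y681.TG.Ret.t _ _ _ _ _ _ (hQcx X.G X.C (X.N i))
    (hQcx Y.G Y.C (Y.N i)) k m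
  rw [← h] at h2
  exact h2

include hQpr hQcx in
/-- The growth estimate: the logarithm of the torsion of a product. -/
theorem log_tors_prod (i k m : ℕ) :
    ((Y.betti ℚ i m : ℝ) / (Y.N i).index) *
      (Real.log (X.C.tors (X.N i) k) / (X.N i).index)
      ≤ Real.log ((X.prod Y).C.tors ((X.prod Y).N i) (k + m)) / ((X.prod Y).N i).index := by
  have h1 := X.tors_prod Y hQpr hQcx i k m
  have h2 : (Y.betti ℚ i m : ℝ) * Real.log (X.C.tors (X.N i) k)
      ≤ Real.log ((X.prod Y).C.tors ((X.prod Y).N i) (k + m)) := by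
    rw [← Real.log_pow]
    rcases Nat.eq_zero_or_pos (X.C.tors (X.N i) k ^ Y.betti ℚ i m) with h0 | h0
    · have : ((X.C.tors (X.N i) k : ℝ)) ^ Y.betti ℚ i m = 0 := by exact_mod_cast h0
      rw [this, Real.log_zero]
      exact Real.log_natCast_nonneg _
    · apply Real.log_le_log
      · exact_mod_cast h0
      · exact_mod_cast h1
  rw [index_prod]
  push_cast
  rw [div_mul_div_comm, mul_comm ((Y.N i).index : ℝ)]
  exact div_le_div_of_nonneg_right h2 (mul_pos (X.index_pos i) (Y.index_pos i)).le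

include hKun hQpr hQcx in
/-- The torsion ranks of odd powers. -/
theorem tau_oddPow (p : ℕ) [Fact p.Prime] (i : ℕ) {τ : ℕ → ℕ}
    (hτ : Rel (X.betti ℚ i) (X.betti (ZMod p) i) τ) (a b r : ℕ) :
    ∀ σ : ℕ → ℕ, Rel ((X.oddPow r).betti ℚ i) ((X.oddPow r).betti (ZMod p) i) σ →
      ∀ ε ≤ 2 * r, τ a ^ (r + 1) * τ b ^ r ≤ σ ((r + 1) * a + r * b + ε) := by
  induction r with
  | zero =>
    intro σ hσ ε hε
    obtain rfl : ε = 0 := by omega
    have h1 : ∀ n, σ n = τ n := by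
      intro n
      induction n with
      | zero =>
        have e1 := hσ.1
        have e2 := hτ.1
        change X.betti (ZMod p) i 0 = X.betti ℚ i 0 + σ 0 at e1
        omega
      | succ n ih =>
        have e1 := hσ.2 n
        have e2 := hτ.2 n
        change X.betti (ZMod p) i (n + 1) = X.betti ℚ i (n + 1) + σ (n + 1) + σ n at e1
        omega
    simp [h1]
  | succ r ih =>
    intro σ hσ ε hε
    obtain ⟨ρ, hρ, -⟩ := (X.oddPow r).exists_tau hQcx p i
    obtain ⟨τ2, hτ2, -⟩ := (X.prod X).exists_tau hQcx p i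
    obtain ⟨ε', δ, δ', h1, h2, h3, rfl⟩ : ∃ ε' δ δ', ε' ≤ 2 * r ∧ δ ≤ 1 ∧ δ' ≤ 1 ∧
        ε = ε' + δ + δ' := by
      refine ⟨min ε (2 * r), min (ε - 2 * r) 1, ε - 2 * r - 1, ?_, ?_, ?_, ?_⟩ <;> omega
    have k1 := ih ρ hρ ε' h1
    have k2 : τ a * τ b ≤ τ2 (a + b + δ) := bin hτ hτ hτ2
      (X.betti_prod X hKun hQpr hQcx ℚ i) (X.betti_prod X hKun hQpr hQcx (ZMod p) i) a b δ h2
    have k3 : ρ ((r + 1) * a + r * b + ε') * τ2 (a + b + δ)
        ≤ σ ((r + 1) * a + r * b + ε' + (a + b + δ) + δ') :=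
      bin hρ hτ2 hσ ((X.oddPow r).betti_prod (X.prod X) hKun hQpr hQcx ℚ i)
        ((X.oddPow r).betti_prod (X.prod X) hKun hQpr hQcx (ZMod p) i) _ _ δ' h3
    have k4 : (r + 1) * a + r * b + ε' + (a + b + δ) + δ'
        = (r + 1 + 1) * a + (r + 1) * b + (ε' + δ + δ') := by ring
    rw [k4] at k3
    refine le_trans ?_ k3
    calc τ a ^ (r + 1 + 1) * τ b ^ (r + 1) = (τ a ^ (r + 1) * τ b ^ r) * (τ a * τ b) := by ring
      _ ≤ _ := Nat.mul_le_mul k1 k2

end hom

end Tower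

end Pool.Agent.Y478.TG
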