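import Pool.Agent.Y478.TG.Mom

/-!
# The spectral measures of the cells
-/

open scoped InnerProductSpace Topology

noncomputable section

namespace Pool.Agent.Y478.TG

open Pool.Agent.Helper993 MeasureTheory Filter

/-- Continuous functions are integrable for a finite measure concentrated on a compact interval. -/
theorem integrable_cont (μ : Measure ℝ) [IsFiniteMeasure μ] {K : ℝ} (h : μ (Set.Icc 0 K)ᶜ = 0)
    {f : ℝ → ℝ} (hf : Continuous f) : Integrable f μ := by
  obtain ⟨c, hc⟩ := (isCompact_Icc (a := (0 : ℝ)) (b := K)).exists_bound_of_continuousOn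
    hf.continuousOn
  have hae : ∀ᵐ x ∂μ, x ∈ Set.Icc 0 K := h
  refine Integrable.of_bound hf.aestronglyMeasurable c ?_
  filter_upwards [hae] with x hx
  exact hc x hx

namespace Cx

variable {G H : Type} [Group G] [Group H] (C : Cx G) (D : Cx H)

section base
variable (hS : SpecStmt) (hM : MomStmt)

include hS

theorem cell_finite (a : Fin C.cells) : IsFiniteMeasure (C.cellMeas a) :=
  (hS _ 1 _ C.laplacian C.laplacian_nonneg).1

theorem cell_supp (a : Fin C.cells) : C.cellMeas a (Set.Icc 0 ‖C.laplacian‖)ᶜ = 0 :=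
  (hS _ 1 _ C.laplacian C.laplacian_nonneg).2.1

theorem cell_integral (a : Fin C.cells) {f : ℝ → ℝ} (hf : Continuous f) :
    ∫ x, f x ∂(C.cellMeas a) = (⟪(FK.unitVec a : FK.L2Pow G C.cells),
      cfc f C.laplacian (FK.unitVec a)⟫_ℂ).re := by
  rw [Cx.cellMeas, (hS _ 1 _ C.laplacian C.laplacian_nonneg).2.2 f hf]
  simp [FK.traceVal]

theorem cell_mom (a : Fin C.cells) (k : ℕ) : ∫ x, x ^ k ∂(C.cellMeas a) = (C.mom a k : ℝ) := by
  have hsa : IsSelfAdjoint C.laplacian := IsSelfAdjoint.of_nonneg C.laplacian_nonneg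
  rw [C.cell_integral hS a (by fun_prop), cfc_pow_id (R := ℝ) C.laplacian k hsa,
    inner_laplacian_pow]
  exact Complex.intCast_re _

theorem cell_ae (a : Fin C.cells) : ∀ᵐ x ∂(C.cellMeas a), x ∈ Set.Icc 0 ‖C.laplacian‖ :=
  C.cell_supp hS a

theorem spec_finite (n : ℕ) : IsFiniteMeasure (C.specMeas n) :=
  (hS _ _ _ C.laplacian C.laplacian_nonneg).1

theorem spec_mom (n k : ℕ) : ∫ x, x ^ k ∂(C.specMeas n)
    = ∑ a with C.deg a = n, (C.mom a k : ℝ) := by
  have hsa : IsSelfAdjoint C.laplacian := IsSelfAdjoint.of_nonneg C.laplacian_nonneg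
  rw [Cx.specMeas, (hS _ _ _ C.laplacian C.laplacian_nonneg).2.2 (fun x => x ^ k) (by fun_prop),
    FK.traceVal, cfc_pow_id (R := ℝ) C.laplacian k hsa, Finset.sum_filter]
  refine Finset.sum_congr rfl fun a _ => ?_
  split_ifs with h
  · rw [inner_laplacian_pow]
    exact Complex.intCast_re _
  · simp

include hM

/-- The spectral measure in degree `n` is the sum over the `n`-cells. -/
theorem spec_eq (n : ℕ) : C.specMeas n = ∑ a with C.deg a = n, C.cellMeas a := by
  have h1 := C.spec_finite hS n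
  have h2 : ∀ a, IsFiniteMeasure (C.cellMeas a) := C.cell_finite hS
  apply hM _ _ ‖C.laplacian‖
  · exact (hS _ _ _ C.laplacian C.laplacian_nonneg).2.1
  · rw [Measure.finsetSum_apply]
    exact Finset.sum_eq_zero fun a _ => C.cell_supp hS a
  · intro k
    rw [C.spec_mom hS, integral_finsetSum_measure]
    · exact Finset.sum_congr rfl fun a _ => (C.cell_mom hS a k).symm
    · intro a _
      exact integrable_cont _ (C.cell_supp hS a) (by fun_prop)

/-- The spectral measure at a pair of cells is the convolution. -/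
theorem prod_cell (p : Fin (C.prod D).cells) : (C.prod D).cellMeas p
    = ((C.cellMeas (C.pe D p).1).prod (D.cellMeas (C.pe D p).2)).map (fun z => z.1 + z.2) := by
  generalize hp : C.pe D p = q
  obtain ⟨a, b⟩ := q
  have h1 := (C.prod D).cell_finite hS p
  have h2 := C.cell_finite hS a
  have h3 := D.cell_finite hS b
  have hm : Measurable (fun z : ℝ × ℝ => z.1 + z.2) := by fun_prop
  have h4 : IsFiniteMeasure (((C.cellMeas a).prod (D.cellMeas b)).map (fun z => z.1 + z.2)) :=
    Measure.isFiniteMeasure_map _ _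
  have hae : ∀ᵐ z ∂((C.cellMeas a).prod (D.cellMeas b)), z.1 ∈ Set.Icc 0 ‖C.laplacian‖ ∧
      z.2 ∈ Set.Icc 0 ‖D.laplacian‖ := by
    have e1 := (Measure.quasiMeasurePreserving_fst (μ := C.cellMeas a)
      (ν := D.cellMeas b)).ae (C.cell_ae hS a)
    have e2 := (Measure.quasiMeasurePreserving_snd (μ := C.cellMeas a)
      (ν := D.cellMeas b)).ae (D.cell_ae hS b)
    filter_upwards [e1, e2] with z hz1 hz2
    exact ⟨hz1, hz2⟩
  refine hM _ _ (max ‖(C.prod D).laplacian‖ (‖C.laplacian‖ + ‖D.laplacian‖)) ?_ ?_ ?_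
  · have : ∀ᵐ x ∂((C.prod D).cellMeas p), x ∈
        Set.Icc 0 (max ‖(C.prod D).laplacian‖ (‖C.laplacian‖ + ‖D.laplacian‖)) := by
      filter_upwards [(C.prod D).cell_ae hS p] with x hx
      exact ⟨hx.1, hx.2.trans (le_max_left _ _)⟩
    exact this
  · have : ∀ᵐ x ∂(((C.cellMeas a).prod (D.cellMeas b)).map (fun z => z.1 + z.2)), x ∈
        Set.Icc 0 (max ‖(C.prod D).laplacian‖ (‖C.laplacian‖ + ‖D.laplacian‖)) := by
      refine (ae_map_iff hm.aemeasurable (p := fun x => x ∈
        Set.Icc 0 (max ‖(C.prod D).laplacian‖ (‖C.laplacian‖ + ‖D.laplacian‖)))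
        measurableSet_Icc).mpr ?_
      filter_upwards [hae] with z hz
      exact ⟨add_nonneg hz.1.1 hz.2.1, (add_le_add hz.1.2 hz.2.2).trans (le_max_right _ _)⟩
    exact this
  · intro k
    rw [(C.prod D).cell_mom hS, prod_mom, integral_map hm.aemeasurable (by fun_prop), hp]
    have e : ∀ z : ℝ × ℝ, (z.1 + z.2) ^ k = ∑ i ∈ Finset.range (k + 1),
        z.1 ^ i * z.2 ^ (k - i) * (k.choose i : ℝ) := fun z => add_pow _ _ _
    simp only [e]
    rw [integral_finsetSum]
    · push_cast
      refine Finset.sum_congr rfl fun i _ => ?_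
      rw [integral_mul_const, integral_prod_mul (fun x : ℝ => x ^ i) (fun y : ℝ => y ^ (k - i)),
        C.cell_mom hS, D.cell_mom hS]
    · intro i _
      apply Integrable.mul_const
      exact Integrable.mul_prod (f := fun x : ℝ => x ^ i) (g := fun y : ℝ => y ^ (k - i))
        (integrable_cont _ (C.cell_supp hS a) (continuous_pow i))
        (integrable_cont _ (D.cell_supp hS b) (continuous_pow (k - i)))

end base

end Cx

end Pool.Agent.Y478.TG
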