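import Pool.Agent.Y478.TG.Lap

/-!
# Moments of the Laplacian: products and the alternating sum
-/

open scoped InnerProductSpace Topology

noncomputable section

namespace Pool.Agent.Y478.TG

open Pool.Agent.Helper993 MeasureTheory Filter

section submatrix
variable {I J R : Type} [Fintype I] [Fintype J] [DecidableEq I] [DecidableEq J] [Ring R]

theorem submatrix_pow (M : Matrix I I R) (e : J ≃ I) (k : ℕ) :
    (M.submatrix e e) ^ k = (M ^ k).submatrix e e := by
  induction k with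
  | zero => rw [pow_zero, pow_zero, Matrix.submatrix_one_equiv]
  | succ k ih => rw [pow_succ, pow_succ, ih, Matrix.submatrix_mul_equiv]

end submatrix

namespace Cx

variable {G H : Type} [Group G] [Group H] (C : Cx G) (D : Cx H)

/-- the cells of a product are the pairs of cells -/
def pe : Fin (C.prod D).cells ≃ Fin C.cells × Fin D.cells := finProdFinEquiv.symm

theorem prod_deg (p : Fin (C.prod D).cells) :
    (C.prod D).deg p = C.deg (C.pe D p).1 + D.deg (C.pe D p).2 := rfl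

theorem prod_d : (C.prod D).d = (tens C.deg (C.d.map (inl G H)) (D.d.map (inr G H))).submatrix
    (C.pe D) (C.pe D) := rfl

theorem adj_prod_d : FK.adjZ (C.prod D).d
    = (tens C.deg ((FK.adjZ C.d).map (inl G H)) ((FK.adjZ D.d).map (inr G H))).submatrix
      (C.pe D) (C.pe D) := by
  ext1 p q
  rw [adjZ_apply, prod_d, Matrix.submatrix_apply, Matrix.submatrix_apply]
  generalize C.pe D p = p'
  generalize C.pe D q = q'
  simp only [tens, Matrix.of_apply, Matrix.map_apply]
  rw [iv_add]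
  congr 1
  · by_cases h : p'.2 = q'.2
    · rw [if_pos h, if_pos h.symm, iv_inl, adjZ_apply]
    · rw [if_neg h, if_neg (fun e => h e.symm), iv_zero]
  · by_cases h : p'.1 = q'.1
    · rw [if_pos h, if_pos h.symm, iv_sign, iv_inr, adjZ_apply, h]
    · rw [if_neg h, if_neg (fun e => h e.symm), iv_zero]

theorem odd_adj_map {S : Type} [Ring S] (f : MonoidAlgebra ℤ G →+* S) :
    Odd' C.deg ((FK.adjZ C.d).map f) := by
  intro a b h
  have : C.d b a ≠ 0 := by
    intro h0
    apply h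
    rw [Matrix.map_apply, adjZ_apply, h0, iv_zero, map_zero]
  rw [C.deg_eq b a this, pow_succ]
  simp

theorem prod_lapZ : (C.prod D).lapZ
    = (tl (Fin D.cells) (C.lapZ.map (inl G H)) + tr (Fin C.cells) (D.lapZ.map (inr G H))).submatrix
      (C.pe D) (C.pe D) := by
  have e1 : C.lapZ.map (inl G H) = C.d.map (inl G H) * (FK.adjZ C.d).map (inl G H)
      + (FK.adjZ C.d).map (inl G H) * C.d.map (inl G H) := by
    rw [← Matrix.map_mul, ← Matrix.map_mul, ← Matrix.map_add _ (map_add (inl G H))]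
    rfl
  have e2 : D.lapZ.map (inr G H) = D.d.map (inr G H) * (FK.adjZ D.d).map (inr G H)
      + (FK.adjZ D.d).map (inr G H) * D.d.map (inr G H) := by
    rw [← Matrix.map_mul, ← Matrix.map_mul, ← Matrix.map_add _ (map_add (inr G H))]
    rfl
  rw [e1, e2, ← tens_lap C.deg _ _ _ _ (C.odd_map _) (C.odd_adj_map _)
    (fun _ _ _ _ => inl_comm_inr _ _) (fun _ _ _ _ => inl_comm_inr _ _)]
  unfold lapZ
  rw [adj_prod_d, prod_d]
  rw [Matrix.submatrix_mul_equiv, Matrix.submatrix_mul_equiv]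
  rfl

theorem prod_mom (p : Fin (C.prod D).cells) (k : ℕ) :
    (C.prod D).mom p k = ∑ i ∈ Finset.range (k + 1),
      C.mom (C.pe D p).1 i * D.mom (C.pe D p).2 (k - i) *
        (k.choose i : ℤ) := by
  unfold mom
  rw [prod_lapZ, submatrix_pow, Matrix.submatrix_apply, add_pow_apply]
  · rw [MonoidAlgebra.coeff_sum, Finsupp.finsetSum_apply]
    refine Finset.sum_congr rfl fun i _ => ?_
    have e1 : (C.lapZ.map (inl G H)) ^ i = (C.lapZ ^ i).map (inl G H) :=
      (Matrix.map_pow _ _ _).symm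
    have e2 : (D.lapZ.map (inr G H)) ^ (k - i) = (D.lapZ ^ (k - i)).map (inr G H) :=
      (Matrix.map_pow _ _ _).symm
    rw [e1, e2, Matrix.map_apply, Matrix.map_apply, ← coeff_one_inl_inr, ← nsmul_eq_mul',
      MonoidAlgebra.coeff_smul, Finsupp.smul_apply]
    simp [mul_comm]
  · intro a a' b b'
    exact inl_comm_inr _ _

/-! ### The alternating sum -/

/-- the trace over the integral group ring -/
def trZ {r : ℕ} (M : Matrix (Fin r) (Fin r) (MonoidAlgebra ℤ G)) : ℤ := ∑ a, (M a a).coeff 1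

theorem trZ_add {r : ℕ} (M N : Matrix (Fin r) (Fin r) (MonoidAlgebra ℤ G)) :
    trZ (M + N) = trZ M + trZ N := by
  unfold trZ
  rw [← Finset.sum_add_distrib]
  refine Finset.sum_congr rfl fun a _ => ?_
  rw [Matrix.add_apply, MonoidAlgebra.coeff_add, Finsupp.add_apply]

theorem trZ_neg {r : ℕ} (M : Matrix (Fin r) (Fin r) (MonoidAlgebra ℤ G)) :
    trZ (-M) = - trZ M := by
  have h := trZ_add M (-M)
  rw [add_neg_cancel] at h
  have h0 : trZ (0 : Matrix (Fin r) (Fin r) (MonoidAlgebra ℤ G)) = 0 := by simp [trZ]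
  rw [h0] at h
  linarith

theorem trZ_mul_comm {r : ℕ} (M N : Matrix (Fin r) (Fin r) (MonoidAlgebra ℤ G)) :
    trZ (M * N) = trZ (N * M) := by
  unfold trZ
  simp only [Matrix.mul_apply, MonoidAlgebra.coeff_sum, Finsupp.finsetSum_apply]
  rw [Finset.sum_comm]
  refine Finset.sum_congr rfl fun a _ => Finset.sum_congr rfl fun b _ => ?_
  exact coeff_one_mul_comm _ _

/-- the sign matrix of the degree -/
def sg : Matrix (Fin C.cells) (Fin C.cells) (MonoidAlgebra ℤ G) :=
  Matrix.diagonal fun a => (-1) ^ C.deg a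

theorem sg_mul {A : Matrix (Fin C.cells) (Fin C.cells) (MonoidAlgebra ℤ G)} (h : Odd' C.deg A) :
    C.sg * A = -(A * C.sg) := by
  ext1 a b
  rw [sg, Matrix.diagonal_mul, Matrix.neg_apply, Matrix.mul_diagonal]
  by_cases h0 : A a b = 0
  · rw [h0]; simp
  · rw [h a b h0]
    have h1 : A a b * (-1) ^ C.deg b = (-1) ^ C.deg b * A a b :=
      ((Commute.neg_one_left (A a b)).pow_left _).eq.symm
    rw [h1]
    simp

theorem odd_d : Odd' C.deg C.d := by
  have := C.odd_map (RingHom.id _)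
  rwa [RingHom.coe_id, Matrix.map_id] at this

theorem odd_adj : Odd' C.deg (FK.adjZ C.d) := by
  have := C.odd_adj_map (RingHom.id _)
  rwa [RingHom.coe_id, Matrix.map_id] at this

theorem sg_lap : C.sg * C.lapZ = C.lapZ * C.sg := by
  unfold lapZ
  rw [mul_add, add_mul, ← mul_assoc, ← mul_assoc, C.sg_mul C.odd_d, C.sg_mul C.odd_adj,
    neg_mul, neg_mul, mul_assoc, mul_assoc, C.sg_mul C.odd_d, C.sg_mul C.odd_adj]
  noncomm_ring

theorem d_lap : C.d * C.lapZ = C.lapZ * C.d := by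
  unfold lapZ
  rw [mul_add, add_mul, ← mul_assoc, ← mul_assoc, C.d_mul_d, zero_mul, zero_add, mul_assoc _ C.d,
    C.d_mul_d, mul_zero, add_zero, mul_assoc]

theorem sg_lap_pow (k : ℕ) : C.sg * C.lapZ ^ k = C.lapZ ^ k * C.sg := by
  induction k with
  | zero => simp
  | succ k ih => rw [pow_succ, ← mul_assoc, ih, mul_assoc, sg_lap, mul_assoc]

theorem d_lap_pow (k : ℕ) : C.d * C.lapZ ^ k = C.lapZ ^ k * C.d := by
  induction k with
  | zero => simp
  | succ k ih => rw [pow_succ, ← mul_assoc, ih, mul_assoc, d_lap, mul_assoc]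

theorem trZ_sg (M : Matrix (Fin C.cells) (Fin C.cells) (MonoidAlgebra ℤ G)) :
    trZ (C.sg * M) = ∑ a, (-1) ^ C.deg a * (M a a).coeff 1 := by
  unfold trZ
  refine Finset.sum_congr rfl fun a _ => ?_
  rw [sg, Matrix.diagonal_mul]
  rcases Nat.even_or_odd (C.deg a) with h | h
  · rw [h.neg_one_pow, h.neg_one_pow, one_mul, one_mul]
  · rw [h.neg_one_pow, h.neg_one_pow, neg_one_mul, neg_one_mul, MonoidAlgebra.coeff_neg,
      Finsupp.neg_apply]

/-- The alternating sum of the moments vanishes. -/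
theorem alt_mom (k : ℕ) : ∑ a, (-1) ^ C.deg a * C.mom a (k + 1) = 0 := by
  have h1 : ∑ a, (-1) ^ C.deg a * C.mom a (k + 1) = trZ (C.sg * C.lapZ ^ (k + 1)) :=
    (C.trZ_sg _).symm
  rw [h1, pow_succ]
  have e : C.sg * (C.lapZ ^ k * C.lapZ) = C.sg * C.lapZ ^ k * C.d * FK.adjZ C.d
      + C.sg * C.lapZ ^ k * FK.adjZ C.d * C.d := by
    conv_lhs => rw [show C.lapZ ^ k * C.lapZ = C.lapZ ^ k * (C.d * FK.adjZ C.d
      + FK.adjZ C.d * C.d) from rfl]
    noncomm_ring
  have e2 : C.sg * C.lapZ ^ k * C.d = - (C.d * (C.sg * C.lapZ ^ k)) := by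
    rw [mul_assoc, ← d_lap_pow, ← mul_assoc, C.sg_mul C.odd_d, neg_mul, mul_assoc]
  rw [e, trZ_add, e2, neg_mul, trZ_neg, trZ_mul_comm (C.sg * C.lapZ ^ k * FK.adjZ C.d) C.d,
    mul_assoc C.d (C.sg * C.lapZ ^ k) (FK.adjZ C.d)]
  ring

end Cx

end Pool.Agent.Y478.TG
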