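import Pool.Agent.Y478.TG.Tower
import Pool.Agent.Helper993.Luck

/-!
# Exact statements of the lemmas of the project (as propositions)
-/

open scoped InnerProductSpace Topology

noncomputable section

namespace Pool.Agent.Y478.TG

open Pool.Agent.Helper993 MeasureTheory Filter

/-- A finite chain complex given by a matrix: the boundary lowers the dimension by one, and its
square is zero. -/
def IsCx {I R : Type} [Fintype I] [Ring R] (deg : I → ℕ) (A : Matrix I I R) : Prop :=
  (∀ a b, A a b ≠ 0 → deg a = deg b + 1) ∧ A * A = 0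

/-- The reduction of an integral matrix to a field. -/
def toF (F : Type) [Field F] {I : Type} (A : Matrix I I ℤ) : Matrix I I F :=
  A.map (Int.castRingHom F)

/-- The dimension function of a tensor product. -/
def degT {I J : Type} (dI : I → ℕ) (dJ : J → ℕ) : I × J → ℕ := fun p => dI p.1 + dJ p.2

/-! ### Finite complexes -/

/-- KUN: the Künneth formula over a field. -/
def KunStmt : Prop := ∀ (F I J : Type) [Field F] [Fintype I] [Fintype J] [DecidableEq I]
  [DecidableEq J] (dI : I → ℕ) (dJ : J → ℕ) (A : Matrix I I F) (B : Matrix J J F),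
  IsCx dI A → IsCx dJ B → ∀ n, betti (degT dI dJ) (tens dI A B) n =
    ∑ i ∈ Finset.range (n + 1), betti dI A i * betti dJ B (n - i)

/-- UCT: Betti numbers over `ZMod p` and over `ℚ`, with a lower bound for the torsion. -/
def UctStmt : Prop := ∀ (p : ℕ) [Fact p.Prime] (I : Type) [Fintype I] [DecidableEq I] (dI : I → ℕ)
  (A : Matrix I I ℤ), IsCx dI A → ∃ τ : ℕ → ℕ, (∀ n, p ^ τ n ≤ torsOrder dI A n) ∧
    betti dI (toF (ZMod p) A) 0 = betti dI (toF ℚ A) 0 + τ 0 ∧
    ∀ n, betti dI (toF (ZMod p) A) (n + 1) = betti dI (toF ℚ A) (n + 1) + τ (n + 1) + τ n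

/-- RET: the homology of a tensor product contains the tensor product of the homology of the first
factor with the free part of the homology of the second factor. -/
def RetStmt : Prop := ∀ (I J : Type) [Fintype I] [Fintype J] [DecidableEq I]
  [DecidableEq J] (dI : I → ℕ) (dJ : J → ℕ) (A : Matrix I I ℤ) (B : Matrix J J ℤ),
  IsCx dI A → IsCx dJ B → ∀ k m,
    torsOrder dI A k ^ betti dJ (toF ℚ B) m ≤ torsOrder (degT dI dJ) (tens dI A B) (k + m)

/-! ### The quotient complexes of a product -/

/-- QCX: the quotient is a complex. -/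
def QcxStmt : Prop := ∀ (G : Type) [Group G] (C : Cx G) (N : Subgroup G) [N.Normal]
  [Fintype (G ⧸ N)], IsCx (fun p : Fin C.cells × (G ⧸ N) => C.deg p.1) (C.bd N)

/-- QPR: the quotient of a product is the tensor product of the quotients. -/
def QprStmt : Prop := ∀ (G H : Type) [Group G] [Group H] (C : Cx G) (D : Cx H)
  (N : Subgroup G) (M : Subgroup H) [N.Normal] [M.Normal] [N.FiniteIndex] [M.FiniteIndex]
  [(N.prod M).FiniteIndex] [Fintype (G ⧸ N)] [Fintype (H ⧸ M)] [DecidableEq (G ⧸ N)]
  [DecidableEq (H ⧸ M)] (n : ℕ),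
  (C.prod D).tors (N.prod M) n =
      torsOrder (degT (fun p : Fin C.cells × (G ⧸ N) => C.deg p.1)
        (fun p : Fin D.cells × (H ⧸ M) => D.deg p.1))
        (tens (fun p => C.deg p.1) (C.bd N) (D.bd M)) n ∧
    ∀ (F : Type) [Field F], (C.prod D).betti (N.prod M) F n =
      TG.betti (degT (fun p : Fin C.cells × (G ⧸ N) => C.deg p.1)
        (fun p : Fin D.cells × (H ⧸ M) => D.deg p.1))
        (toF F (tens (fun p => C.deg p.1) (C.bd N) (D.bd M))) n

/-! ### Spectral measures -/

/-- SPEC: the spectral measure of a positive operator. -/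
def SpecStmt : Prop := ∀ (H : Type) [NormedAddCommGroup H] [InnerProductSpace ℂ H]
  [CompleteSpace H] (r : ℕ) (e : Fin r → H) (T : H →L[ℂ] H), 0 ≤ T →
    IsFiniteMeasure (FK.spectralMeasure e T) ∧
    FK.spectralMeasure e T (Set.Icc 0 ‖T‖)ᶜ = 0 ∧
    ∀ f : ℝ → ℝ, Continuous f → ∫ x, f x ∂(FK.spectralMeasure e T) = FK.traceVal e T f

/-- MOM: a finite measure with compact support is determined by its moments. -/
def MomStmt : Prop := ∀ (μ ν : Measure ℝ) [IsFiniteMeasure μ] [IsFiniteMeasure ν] (K : ℝ),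
  μ (Set.Icc 0 K)ᶜ = 0 → ν (Set.Icc 0 K)ᶜ = 0 → (∀ k : ℕ, ∫ x, x ^ k ∂μ = ∫ x, x ^ k ∂ν) → μ = ν

/-! ### Approximation -/

/-- LUC: if the normalised Betti numbers of the coverings tend to zero then the Laplacian is
injective. -/
def LucStmt : Prop := ∀ X : Tower,
  (∀ n, Tendsto (fun i => (X.betti ℚ i n : ℝ) / ((X.N i).index : ℝ)) atTop (𝓝 0)) →
    ∀ v, X.C.laplacian v = 0 → v = 0

/-- The spectral measure of the Laplacian at one cell. -/
def Cx.cellMeas {G : Type} [Group G] (C : Cx G) (a : Fin C.cells) : Measure ℝ :=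
  FK.spectralMeasure (fun _ : Fin 1 => FK.unitVec a) C.laplacian

/-- DET: determinant class. -/
def DetStmt : Prop := ∀ X : Tower, (∀ v, X.C.laplacian v = 0 → v = 0) →
  ∀ a, IntegrableOn Real.log (Set.Ioi 0) (X.C.cellMeas a)

end Pool.Agent.Y478.TG
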