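import Pool.Agent.Y478.TG.Defs

/-!
# Algebra of the tensor product of matrix complexes
-/

noncomputable section

namespace Pool.Agent.Y478.TG

section ring
variable {I J R : Type} [Fintype I] [Fintype J] [DecidableEq I] [DecidableEq J] [Ring R]

/-- `A ⊗ 1` -/
def tl (J : Type) [DecidableEq J] (A : Matrix I I R) : Matrix (I × J) (I × J) R :=
  Matrix.of fun p q => if p.2 = q.2 then A p.1 q.1 else 0

/-- `1 ⊗ B` -/
def tr (I : Type) [DecidableEq I] (B : Matrix J J R) : Matrix (I × J) (I × J) R :=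
  Matrix.of fun p q => if p.1 = q.1 then B p.2 q.2 else 0

/-- `σ ⊗ B` with the sign `σ` of the degree -/
def ts (deg : I → ℕ) (B : Matrix J J R) : Matrix (I × J) (I × J) R :=
  Matrix.of fun p q => if p.1 = q.1 then (-1) ^ deg p.1 * B p.2 q.2 else 0

omit [Fintype I] [Fintype J] in
theorem tens_eq (deg : I → ℕ) (A : Matrix I I R) (B : Matrix J J R) :
    tens deg A B = tl J A + ts deg B := rfl

/-- multiplication of a matrix supported on `p.2 = q.2` -/
theorem sum_snd (f : I → R) (g : I × J → R) (j : J) :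
    ∑ r : I × J, (if j = r.2 then f r.1 else 0) * g r = ∑ i, f i * g (i, j) := by
  rw [Fintype.sum_prod_type]
  refine Finset.sum_congr rfl fun i _ => ?_
  rw [Finset.sum_eq_single j]
  · simp
  · intro b _ hb
    rw [if_neg (fun h => hb h.symm), zero_mul]
  · intro h; exact absurd (Finset.mem_univ _) h

theorem sum_fst (f : J → R) (g : I × J → R) (i : I) :
    ∑ r : I × J, (if i = r.1 then f r.2 else 0) * g r = ∑ j, f j * g (i, j) := by
  rw [Fintype.sum_prod_type, Finset.sum_eq_single i]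
  · simp
  · intro b _ hb
    apply Finset.sum_eq_zero
    intro j _
    rw [if_neg (fun h => hb h.symm), zero_mul]
  · intro h; exact absurd (Finset.mem_univ _) h

theorem tl_mul_tl (A B : Matrix I I R) : tl J A * tl J B = tl J (A * B) := by
  ext p q
  rw [Matrix.mul_apply]
  change ∑ r : I × J, (if p.2 = r.2 then A p.1 r.1 else 0) * (tl J B r q) = _
  rw [sum_snd (fun i => A p.1 i)]
  simp only [tl, Matrix.of_apply]
  split_ifs with h
  · rw [Matrix.mul_apply]
  · simp

theorem tr_mul_tr (A B : Matrix J J R) : tr I A * tr I B = tr I (A * B) := by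
  ext p q
  rw [Matrix.mul_apply]
  change ∑ r : I × J, (if p.1 = r.1 then A p.2 r.2 else 0) * (tr I B r q) = _
  rw [sum_fst (fun i => A p.2 i)]
  simp only [tr, Matrix.of_apply]
  split_ifs with h
  · rw [Matrix.mul_apply]
  · simp

theorem ts_mul_ts (deg : I → ℕ) (A B : Matrix J J R) :
    ts deg A * ts deg B = tr I (A * B) := by
  ext p q
  rw [Matrix.mul_apply]
  change ∑ r : I × J, (if p.1 = r.1 then (-1) ^ deg p.1 * A p.2 r.2 else 0) * (ts deg B r q) = _
  rw [sum_fst (fun i => (-1) ^ deg p.1 * A p.2 i)]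
  simp only [tr, ts, Matrix.of_apply]
  split_ifs with h
  · rw [Matrix.mul_apply]
    refine Finset.sum_congr rfl fun j _ => ?_
    have h1 : A p.2 j * (-1) ^ deg p.1 = (-1) ^ deg p.1 * A p.2 j :=
      ((Commute.neg_one_left (A p.2 j)).pow_left _).eq.symm
    rw [mul_assoc, ← mul_assoc (A p.2 j), h1, ← mul_assoc, ← mul_assoc, ← pow_add, ← two_mul,
      pow_mul, neg_one_sq, one_pow, one_mul]
  · simp

theorem tl_mul_ts (deg : I → ℕ) (A : Matrix I I R) (B : Matrix J J R) (p q : I × J) :
    (tl J A * ts deg B) p q = A p.1 q.1 * ((-1) ^ deg q.1 * B p.2 q.2) := by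
  rw [Matrix.mul_apply]
  change ∑ r : I × J, (if p.2 = r.2 then A p.1 r.1 else 0) * (ts deg B r q) = _
  rw [sum_snd (fun i => A p.1 i)]
  simp only [ts, Matrix.of_apply]
  rw [Finset.sum_eq_single q.1]
  · simp
  · intro b _ hb
    rw [if_neg hb, mul_zero]
  · intro h; exact absurd (Finset.mem_univ _) h

theorem ts_mul_tl (deg : I → ℕ) (A : Matrix I I R) (B : Matrix J J R) (p q : I × J) :
    (ts deg B * tl J A) p q = (-1) ^ deg p.1 * B p.2 q.2 * A p.1 q.1 := by
  rw [Matrix.mul_apply]
  change ∑ r : I × J, (if p.1 = r.1 then (-1) ^ deg p.1 * B p.2 r.2 else 0) * (tl J A r q) = _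
  rw [sum_fst (fun i => (-1) ^ deg p.1 * B p.2 i)]
  simp only [tl, Matrix.of_apply]
  rw [Finset.sum_eq_single q.2]
  · simp
  · intro b _ hb
    rw [if_neg hb, mul_zero]
  · intro h; exact absurd (Finset.mem_univ _) h

theorem tl_mul_tr (A : Matrix I I R) (B : Matrix J J R) (p q : I × J) :
    (tl J A * tr I B) p q = A p.1 q.1 * B p.2 q.2 := by
  rw [Matrix.mul_apply]
  change ∑ r : I × J, (if p.2 = r.2 then A p.1 r.1 else 0) * (tr I B r q) = _
  rw [sum_snd (fun i => A p.1 i)]
  simp only [tr, Matrix.of_apply]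
  rw [Finset.sum_eq_single q.1]
  · simp
  · intro b _ hb
    rw [if_neg hb, mul_zero]
  · intro h; exact absurd (Finset.mem_univ _) h

theorem tr_mul_tl (A : Matrix I I R) (B : Matrix J J R) (p q : I × J) :
    (tr I B * tl J A) p q = B p.2 q.2 * A p.1 q.1 := by
  rw [Matrix.mul_apply]
  change ∑ r : I × J, (if p.1 = r.1 then B p.2 r.2 else 0) * (tl J A r q) = _
  rw [sum_fst (fun i => B p.2 i)]
  simp only [tl, Matrix.of_apply]
  rw [Finset.sum_eq_single q.2]
  · simp
  · intro b _ hb
    rw [if_neg hb, mul_zero]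
  · intro h; exact absurd (Finset.mem_univ _) h

/-- `A` changes the parity of the degree -/
def Odd' (deg : I → ℕ) (A : Matrix I I R) : Prop :=
  ∀ a b, A a b ≠ 0 → (-1 : R) ^ deg a = -(-1) ^ deg b

/-- the entries of `A` and `B` commute -/
def Comm (A : Matrix I I R) (B : Matrix J J R) : Prop := ∀ a a' b b', Commute (A a a') (B b b')

theorem anti (deg : I → ℕ) (A : Matrix I I R) (B : Matrix J J R) (hA : Odd' deg A)
    (hAB : Comm A B) : tl J A * ts deg B + ts deg B * tl J A = 0 := by
  ext p q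
  rw [Matrix.add_apply, tl_mul_ts, ts_mul_tl, Matrix.zero_apply]
  by_cases h : A p.1 q.1 = 0
  · rw [h]; simp
  · rw [hA _ _ h, mul_assoc _ (B p.2 q.2), ← (hAB p.1 q.1 p.2 q.2).eq, ← mul_assoc, ← mul_assoc]
    have h1 : A p.1 q.1 * (-1) ^ deg q.1 = (-1) ^ deg q.1 * A p.1 q.1 :=
      ((Commute.neg_one_left (A p.1 q.1)).pow_left _).eq.symm
    rw [h1]
    simp

theorem tens_sq (deg : I → ℕ) (A : Matrix I I R) (B : Matrix J J R) (hA : Odd' deg A)
    (hAB : Comm A B) (hA2 : A * A = 0) (hB2 : B * B = 0) : tens deg A B * tens deg A B = 0 := by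
  rw [tens_eq, add_mul, mul_add, mul_add, tl_mul_tl, ts_mul_ts, hA2, hB2]
  have h0 : tl J (0 : Matrix I I R) = 0 := by ext p q; simp [tl]
  have h1 : tr I (0 : Matrix J J R) = 0 := by ext p q; simp [tr]
  rw [h0, h1, zero_add, add_zero]
  exact anti deg A B hA hAB

/-- The Laplacian of a tensor product. -/
theorem tens_lap (deg : I → ℕ) (A A' : Matrix I I R) (B B' : Matrix J J R) (hA : Odd' deg A)
    (hA' : Odd' deg A') (h1 : Comm A B') (h2 : Comm A' B) :
    tens deg A B * tens deg A' B' + tens deg A' B' * tens deg A B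
      = tl J (A * A' + A' * A) + tr I (B * B' + B' * B) := by
  have e1 := anti deg A B' hA h1
  have e2 := anti deg A' B hA' h2
  have e3 : tl J (A * A' + A' * A) = tl J A * tl J A' + tl J A' * tl J A := by
    rw [tl_mul_tl, tl_mul_tl]
    ext p q
    simp only [tl, Matrix.of_apply, Matrix.add_apply]
    split_ifs <;> simp
  have e4 : tr I (B * B' + B' * B) = ts deg B * ts deg B' + ts deg B' * ts deg B := by
    rw [ts_mul_ts, ts_mul_ts]
    ext p q
    simp only [tr, Matrix.of_apply, Matrix.add_apply]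
    split_ifs <;> simp
  rw [e3, e4, tens_eq, tens_eq]
  have : (tl J A + ts deg B) * (tl J A' + ts deg B') + (tl J A' + ts deg B') * (tl J A + ts deg B)
      = (tl J A * tl J A' + tl J A' * tl J A) + (ts deg B * ts deg B' + ts deg B' * ts deg B)
        + (tl J A * ts deg B' + ts deg B' * tl J A) + (tl J A' * ts deg B + ts deg B * tl J A') := by
    noncomm_ring
  rw [this, e1, e2, add_zero, add_zero]

theorem tl_pow (A : Matrix I I R) (k : ℕ) : (tl J A) ^ k = tl J (A ^ k) := by
  induction k with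
  | zero =>
    ext p q
    simp only [pow_zero, tl, Matrix.of_apply, Matrix.one_apply, Prod.ext_iff]
    split_ifs <;> simp_all
  | succ k ih => rw [pow_succ, pow_succ, ih, tl_mul_tl]

theorem tr_pow (B : Matrix J J R) (k : ℕ) : (tr I B) ^ k = tr I (B ^ k) := by
  induction k with
  | zero =>
    ext p q
    simp only [pow_zero, tr, Matrix.of_apply, Matrix.one_apply, Prod.ext_iff]
    split_ifs <;> simp_all
  | succ k ih => rw [pow_succ, pow_succ, ih, tr_mul_tr]

/-- The entries of the powers of `A ⊗ 1 + 1 ⊗ B`. -/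
theorem add_pow_apply (A : Matrix I I R) (B : Matrix J J R) (h : Comm A B) (k : ℕ) (p q : I × J) :
    ((tl J A + tr I B) ^ k) p q
      = ∑ i ∈ Finset.range (k + 1), (A ^ i) p.1 q.1 * (B ^ (k - i)) p.2 q.2 * (k.choose i : R) := by
  have hc : Commute (tl J A) (tr I B) := by
    ext p q
    rw [tl_mul_tr, tr_mul_tl]
    exact (h p.1 q.1 p.2 q.2).eq
  rw [hc.add_pow, Matrix.sum_apply]
  refine Finset.sum_congr rfl fun i _ => ?_
  rw [tl_pow, tr_pow]
  have : ((k.choose i : ℕ) : Matrix (I × J) (I × J) R) = Matrix.diagonal fun _ => (k.choose i : R) := by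
    rw [← Matrix.diagonal_natCast]
  rw [this, Matrix.mul_diagonal, tl_mul_tr]

end ring

end Pool.Agent.Y478.TG
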