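import Pool.Agent.Y478.TG.Tens

/-!
# Products of complexes; towers of finite coverings
-/

open scoped InnerProductSpace Topology

noncomputable section

namespace Pool.Agent.Y478.TG

open Pool.Agent.Helper993 MeasureTheory Filter

section inc
variable (G H : Type) [Group G] [Group H]

/-- The inclusion of `ℤ[G]` into `ℤ[G × H]`. -/
def inl : MonoidAlgebra ℤ G →+* MonoidAlgebra ℤ (G × H) :=
  MonoidAlgebra.mapDomainRingHom ℤ (MonoidHom.inl G H)

/-- The inclusion of `ℤ[H]` into `ℤ[G × H]`. -/
def inr : MonoidAlgebra ℤ H →+* MonoidAlgebra ℤ (G × H) :=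
  MonoidAlgebra.mapDomainRingHom ℤ (MonoidHom.inr G H)

variable {G H}

theorem inl_single (g : G) (n : ℤ) :
    inl G H (MonoidAlgebra.single g n) = MonoidAlgebra.single (g, (1 : H)) n := by
  simp [inl]

theorem inr_single (h : H) (n : ℤ) :
    inr G H (MonoidAlgebra.single h n) = MonoidAlgebra.single ((1 : G), h) n := by
  simp [inr]

theorem inl_comm_inr (x : MonoidAlgebra ℤ G) (y : MonoidAlgebra ℤ H) :
    Commute (inl G H x) (inr G H y) := by
  induction x using MonoidAlgebra.induction_linear with
  | zero => rw [map_zero]; exact Commute.zero_left _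
  | add a b ha hb => rw [map_add]; exact ha.add_left hb
  | single g n =>
    induction y using MonoidAlgebra.induction_linear with
    | zero => rw [map_zero]; exact Commute.zero_right _
    | add a b ha hb => rw [map_add]; exact ha.add_right hb
    | single h m =>
      rw [inl_single, inr_single]
      change _ * _ = _ * _
      rw [MonoidAlgebra.single_mul_single, MonoidAlgebra.single_mul_single]
      simp [mul_comm]

end inc

namespace Cx

variable {G H : Type} [Group G] [Group H] (C : Cx G) (D : Cx H)

theorem odd_map {S : Type} [Ring S] (f : MonoidAlgebra ℤ G →+* S) : Odd' C.deg (C.d.map f) := by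
  intro a b h
  have : C.d a b ≠ 0 := by
    intro h0
    apply h
    rw [Matrix.map_apply, h0, map_zero]
  rw [C.deg_eq a b this, pow_succ]
  simp

/-- The tensor product complex over `ℤ[G × H]`: the cells are the pairs of cells, and the boundary
matrix is `tens`. -/
def prod : Cx (G × H) where
  cells := C.cells * D.cells
  deg p := C.deg (finProdFinEquiv.symm p).1 + D.deg (finProdFinEquiv.symm p).2
  d := (tens C.deg (C.d.map (inl G H)) (D.d.map (inr G H))).submatrix
    finProdFinEquiv.symm finProdFinEquiv.symm
  deg_eq := by
    intro p q h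
    rw [Matrix.submatrix_apply] at h
    generalize finProdFinEquiv.symm p = p' at *
    generalize finProdFinEquiv.symm q = q' at *
    by_cases h1 : p'.2 = q'.2 ∧ C.d p'.1 q'.1 ≠ 0
    · rw [C.deg_eq _ _ h1.2, h1.1]
      ring
    · by_cases h2 : p'.1 = q'.1 ∧ D.d p'.2 q'.2 ≠ 0
      · rw [D.deg_eq _ _ h2.2, h2.1]
        ring
      · exfalso
        apply h
        have e1 : (if p'.2 = q'.2 then (C.d.map (inl G H)) p'.1 q'.1 else 0) = 0 := by
          split_ifs with h3
          · have : C.d p'.1 q'.1 = 0 := by
              by_contra h4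
              exact h1 ⟨h3, h4⟩
            rw [Matrix.map_apply, this, map_zero]
          · rfl
        have e2 : (if p'.1 = q'.1 then (-1) ^ C.deg p'.1 * (D.d.map (inr G H)) p'.2 q'.2 else 0)
            = 0 := by
          split_ifs with h3
          · have : D.d p'.2 q'.2 = 0 := by
              by_contra h4
              exact h2 ⟨h3, h4⟩
            rw [Matrix.map_apply, this, map_zero, mul_zero]
          · rfl
        simp only [tens, Matrix.of_apply]
        rw [e1, e2, add_zero]
  d_mul_d := by
    rw [Matrix.submatrix_mul_equiv, tens_sq _ _ _ (C.odd_map _)]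
    · rfl
    · intro a a' b b'
      exact inl_comm_inr _ _
    · rw [← Matrix.map_mul, C.d_mul_d]; exact Matrix.map_zero _ (map_zero (inl G H))
    · rw [← Matrix.map_mul, D.d_mul_d]; exact Matrix.map_zero _ (map_zero (inr G H))

end Cx

/-- A complex over `ℤ[G]` with a decreasing sequence `G = N 0 ≥ N 1 ≥ ⋯` of normal subgroups of
finite index with trivial intersection. -/
structure Tower where
  /-- the group -/
  G : Type
  /-- the group structure -/
  grp : Group G
  /-- the complex -/
  C : Cx G
  /-- the normal subgroups -/
  N : ℕ → Subgroup G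
  normal : ∀ i, (N i).Normal
  finiteIndex : ∀ i, (N i).FiniteIndex
  top : N 0 = ⊤
  anti : Antitone N
  inf : ⨅ i, N i = ⊥

attribute [instance] Tower.grp Tower.normal Tower.finiteIndex

namespace Tower

/-- The product: the tensor product of the complexes, with the products of the subgroups. -/
def prod (X Y : Tower) : Tower where
  G := X.G × Y.G
  grp := inferInstance
  C := X.C.prod Y.C
  N i := (X.N i).prod (Y.N i)
  normal i := inferInstance
  finiteIndex i := by
    rw [Subgroup.finiteIndex_iff, Subgroup.index_prod]
    exact mul_ne_zero (X.finiteIndex i).index_ne_zero (Y.finiteIndex i).index_ne_zero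
  top := by rw [X.top, Y.top]; exact Subgroup.top_prod_top
  anti i j h := Subgroup.prod_mono (X.anti h) (Y.anti h)
  inf := by
    rw [eq_bot_iff]
    rintro ⟨g, h⟩ hg
    rw [Subgroup.mem_iInf] at hg
    have h1 : g ∈ ⨅ i, X.N i := Subgroup.mem_iInf.mpr fun i => (Subgroup.mem_prod.mp (hg i)).1
    have h2 : h ∈ ⨅ i, Y.N i := Subgroup.mem_iInf.mpr fun i => (Subgroup.mem_prod.mp (hg i)).2
    rw [X.inf, Subgroup.mem_bot] at h1
    rw [Y.inf, Subgroup.mem_bot] at h2
    rw [Subgroup.mem_bot, h1, h2]
    rfl

/-- The odd powers: `oddPow X r` is the `(2 r + 1)`-fold product of `X` with itself. -/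
def oddPow (X : Tower) : ℕ → Tower
  | 0 => X
  | r + 1 => (X.oddPow r).prod (X.prod X)

/-- The `n`-th Betti number over `F` of the `i`-th covering. -/
def betti (X : Tower) (F : Type) [Field F] (i n : ℕ) : ℕ := X.C.betti (X.N i) F n

/-- The statement of the problem for the complex and the tower `X`, where `k` is the middle
degree: if all `L²`-Betti numbers vanish then `log |tors H_k(X_i; ℤ)| / [G : N i]` converges to
`(-1)^k` times the `L²`-torsion. -/
def TorsionLimit (X : Tower) (k : ℕ) : Prop :=
  (∀ n, X.C.l2betti n = 0) →
    Tendsto (fun i => Real.log (X.C.tors (X.N i) k) / ((X.N i).index : ℝ)) atTop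
      (𝓝 ((-1) ^ k * X.C.l2torsion))

end Tower

end Pool.Agent.Y478.TG
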